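import Pool.Agent.Helper77.TPX.Def
import Pool.Agent.Helper81.CPY.Imim
import Pool.Agent.Helper49.MD.Lim
import Pool.Agent.Helper47.FN.Hull

/-! THE CONDITION TOP ON ALL EVENTS: events of extensions of events of extensions; approximate TOP; DIAGONALS (limits of
zooms) of points with TOP up to `ε j → 0` have TOP on all events of all extensions. The same for any rate function. -/

set_option autoImplicit false

namespace Pool.Agent.Helper63.SCN

open Finset Filter Topology Pool.Agent.Helper69.RK Pool.Agent.Helper31.EC Pool.Agent.Helper31.EC.Sp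
open Pool.Agent.Helper40.EL Pool.Agent.Helper89.LX Pool.Agent.Helper84.MT Pool.Agent.Helper49.MD
open Pool.Agent.Helper77.TPX

noncomputable section

variable {S T : Sp} {N : ℕ}

/-- AN EVENT OF AN EXTENSION OF AN EVENT OF AN EXTENSION, for points -/
theorem im_vv {T' : Sp} (p : Pj T S) (A : ∀ k, (T.F k).Ω → Prop) (hA : 0 < ul (T.pr A)) (p' : Pj T' (Sp.im p A))
    (A' : ∀ k, (T'.F k).Ω → Prop) (hA' : 0 < ul (T'.pr A')) : ∃ (W : Sp) (q : Pj W S) (B : ∀ k, (W.F k).Ω → Prop),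
    0 < ul (W.pr B) ∧ ∀ Q : S.VV N,
    (⟨_, (Q.im p A).im p' A'⟩ : Σ S : Sp, S.VV N) = ⟨_, Q.im q B⟩ := by
  obtain ⟨W, q, B, hB, h⟩ := Pool.Agent.Helper81.CPY.im_im (M := N) (E := fun _ => 0) (ι := PEmpty) p A hA p' A' hA'
  refine ⟨W, q, B, hB, fun Q => ?_⟩
  have h1 := h ⟨Q, fun i => i.elim⟩
  exact congrArg (fun x : Σ S : Sp, MSys S N (fun _ => 0) PEmpty => (⟨x.1, x.2.Q⟩ : Σ S : Sp, S.VV N)) h1

/-- a property of points on all events of all extensions -/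
def AllE (P : ∀ S : Sp, S.VV N → Prop) (Q : S.VV N) : Prop := ∀ (T : Sp) (p : Pj T S) (A : ∀ k, (T.F k).Ω → Prop),
  0 < ul (T.pr A) → P _ (Q.im p A)

theorem AllE.im {P : ∀ S : Sp, S.VV N → Prop} {Q : S.VV N} (h : AllE P Q) (p : Pj T S) (A : ∀ k, (T.F k).Ω → Prop)
    (hA : 0 < ul (T.pr A)) : AllE P (Q.im p A) := by
  intro T' p' A' hA'
  obtain ⟨W, q, B, hB, h1⟩ := im_vv (N := N) p A hA p' A' hA'
  have h2 : (fun x : Σ S : Sp, S.VV N => P x.1 x.2) ⟨_, Q.im q B⟩ := h W q B hB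
  rw [← h1 Q] at h2
  exact h2

/-- TOP passes to events of extensions -/
theorem _root_.Pool.Agent.Helper77.TPX.TopE.im {Q : S.VV N} {z : Fin N} {ρ l : ℝ} (h : TopE Q z ρ l) (p : Pj T S)
    (A : ∀ k, (T.F k).Ω → Prop) (hA : 0 < ul (T.pr A)) : TopE (Q.im p A) z ρ l :=
  AllE.im (P := fun _ Q => TopQ Q z ρ l) h p A hA

/-! ### the finite number -/

/-- the digits of the coordinate `z` -/
def czF (F : FSp) (r : ℝ) (z : Fin N) (Q : F.Ω → Fin N → ℝ) : FL F :=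
  fc (Setoid.ker fun ω => cell (dlF F r) (fun _ : Fin 1 => Q ω z))

/-- the digits of the other coordinates -/
def coF (F : FSp) (r : ℝ) (z : Fin N) (Q : F.Ω → Fin N → ℝ) : FL F :=
  fc (Setoid.ker fun ω => cell (dlF F r) (fun i => if i = z then 0 else Q ω i))

/-- the finite number of TOP -/
def tpF (F : FSp) (z : Fin N) (a b : ℝ) (Q : F.Ω → Fin N → ℝ) : ℝ :=
  h (czF F b z Q) (czF F a z Q ⊔ coF F 1 z Q) / F.n

theorem tpF_UB (Q : S.VV N) (z : Fin N) (a b : ℝ) : UB (fun k => tpF (S.F k) z a b (Q.v k)) := by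
  have e : (fun k => tpF (S.F k) z a b (Q.v k)) =
      S.rt ((Q.co z).bdd b).toInf.1 (((Q.co z).bdd a).toInf.sup ((oth Q z).bdd 1).toInf).1 := by
    funext k
    exact h_rpI ((Q.co z).bdd b).toInf (((Q.co z).bdd a).toInf.sup ((oth Q z).bdd 1).toInf) k
  rw [e]
  exact UB_rt _ _

theorem h_tpF (Q : S.VV N) (z : Fin N) (a b : ℝ) :
    h ((Q.co z).dg b) ((Q.co z).dg a ⊔ (oth Q z).dg 1) = ul (fun k => tpF (S.F k) z a b (Q.v k)) := by
  have e : (fun k => tpF (S.F k) z a b (Q.v k)) =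
      S.rt ((Q.co z).bdd b).toInf.1 (((Q.co z).bdd a).toInf.sup ((oth Q z).bdd 1).toInf).1 := by
    funext k
    exact h_rpI ((Q.co z).bdd b).toInf (((Q.co z).bdd a).toInf.sup ((oth Q z).bdd 1).toInf) k
  rw [e]
  unfold VV.dg
  rw [io_eq ((Q.co z).bdd b), io_eq ((Q.co z).bdd a), io_eq ((oth Q z).bdd 1), ← cl_sup, h_cl]

/-! ### functionals of finite data on all events of all extensions -/

variable {K : FK}

/-- `g ≤ c` on all events of all extensions, as an approximate predicate of finite data -/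
def evA (g : ∀ F : FSp, K.X F → ℝ) (c : ℝ) : AP K where
  P := fun F x δ => ∀ (T : FSp) (p : FPj T F) (A : T.Ω → Prop), T.n = F.n → δ ≤ T.pb A →
    g (FSp.im p A) (K.im p A x) ≤ c + δ
  mono := fun _ _ _ _ h hx T p A hn hA => (hx T p A hn (h.trans hA)).trans (by linarith)

/-- from the events of extensions to the finite predicate -/
theorem evA_of {g : ∀ F : FSp, K.X F → ℝ} {c ε : ℝ} (hε : 0 ≤ ε) {x : K.Ob S}
    (h : ∀ (T : Sp) (p : Pj T S) (A : ∀ k, (T.F k).Ω → Prop), 0 < ul (T.pr A) →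
      UB (fun k => g _ (K.imo x p A k)) ∧ ul (fun k => g _ (K.imo x p A k)) ≤ c + ε) : (evA g c).pd ε S x := by
  classical
  intro δ hδ
  by_contra hn
  have h1 := UF_not hn
  have h2 : ∀ k, ∃ (T : FSp) (p : FPj T (S.F k)) (A : T.Ω → Prop), T.n = (S.F k).n ∧
      (¬ (evA g c).P (S.F k) (x k) δ → δ ≤ T.pb A ∧ c + δ < g (FSp.im p A) (K.im p A (x k))) := by
    intro k
    by_cases hk : (evA g c).P (S.F k) (x k) δ
    · exact ⟨S.F k, (FLab.triv (S.F k)).p, fun _ => True, rfl, fun h => absurd hk h⟩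
    · have h3 := hk
      show ∃ (T : FSp) (p : FPj T (S.F k)) (A : T.Ω → Prop), T.n = (S.F k).n ∧ _
      simp only [evA] at h3
      push Not at h3
      obtain ⟨T, p, A, a, b, d⟩ := h3
      exact ⟨T, p, A, a, fun _ => ⟨b, d⟩⟩
  choose T p A hn h3 using h2
  have hT : Tendsto (fun k => (T k).n) UF atTop := S.lim.congr fun k => (hn k).symm
  set TT : Sp := ⟨T, hT⟩ with hTT
  set pp : Pj TT S := ⟨fun k => (p k).π, fun k => (p k).law, fun k => (p k).hZ, hn⟩ with hpp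
  have h4 : ∀ᶠ k in UF, δ ≤ TT.pr A k := by
    filter_upwards [h1] with k hk using (h3 k hk).1
  have h5 : 0 < ul (TT.pr A) := (hε.trans_lt hδ).trans_le (const_le_ul (UB_pr (S := TT) A) h4)
  obtain ⟨h6, h7⟩ := h TT pp A h5
  have h8 : c + δ ≤ ul (fun k => g _ (K.imo x pp A k)) := by
    refine const_le_ul h6 ?_
    filter_upwards [h1] with k hk using (h3 k hk).2.le
  linarith

/-- from the finite predicate to the events of extensions -/
theorem evA_to {g : ∀ F : FSp, K.X F → ℝ} {c : ℝ} {x : K.Ob S} (h : (evA g c).pd 0 S x) (p : Pj T S)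
    (A : ∀ k, (T.F k).Ω → Prop) (hA : 0 < ul (T.pr A)) (hU : UB (fun k => g _ (K.imo x p A k))) :
    ul (fun k => g _ (K.imo x p A k)) ≤ c := by
  apply le_of_forall_pos_le_add
  intro δ hδ
  have h1 : 0 < min δ (ul (T.pr A) / 2) := lt_min hδ (half_pos hA)
  have h2 := eventually_gt_of_lt_ul (UB_pr A) (half_lt_self hA)
  refine ul_le_const hU ?_
  filter_upwards [h _ h1, h2] with k a b
  have h3 := a (T.F k) (p.fp k) (A k) (p.hn k) ((min_le_right _ _).trans b.le)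
  have h4 := min_le_left δ (ul (T.pr A) / 2)
  have h5 : g (FSp.im (p.fp k) (A k)) (K.im (p.fp k) (A k) (x k)) ≤ c + min δ (ul (T.pr A) / 2) := h3
  show g (FSp.im (p.fp k) (A k)) (K.im (p.fp k) (A k) (x k)) ≤ c + δ
  linarith

/-! ### points of objects -/

/-- a kind with points -/
structure PtK (K : FK) (N : ℕ) where
  q : ∀ F : FSp, K.X F → F.Ω → Fin N → ℝ
  hq : ∀ {F T : FSp} (p : FPj T F) (A : T.Ω → Prop) (x : K.X F), q (FSp.im p A) (K.im p A x) = q F x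

/-- the points of systems -/
def ptM (M : ℕ) (ι : Type) : PtK (KM M ι) M := ⟨fun _ x => x.Q, fun _ _ _ => rfl⟩

/-- the points of systems with a partition -/
def ptR (M : ℕ) (ι : Type) : PtK (Pool.Agent.Helper47.FN.KR M ι) M := ⟨fun _ x => x.1.Q, fun _ _ _ => rfl⟩

/-- `y` is the point of the object -/
def PtK.Of (π : PtK K N) (x : K.Ob S) (y : S.VV N) : Prop := ∀ᶠ k in UF, y.v k = π.q (S.F k) (x k)

/-- a property of points as a property of objects: for all / for some point of the object -/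
def PtK.al (π : PtK K N) (P : ∀ S : Sp, S.VV N → Prop) : K.Pd := fun S x => ∀ y : S.VV N, π.Of x y → P S y

def PtK.ex (π : PtK K N) (P : ∀ S : Sp, S.VV N → Prop) : K.Pd := fun S x => ∃ y : S.VV N, π.Of x y ∧ P S y

theorem PtK.Of.im {π : PtK K N} {x : K.Ob S} {y : S.VV N} (h : π.Of x y) (p : Pj T S) (A : ∀ k, (T.F k).Ω → Prop) :
    π.Of (K.imo x p A) (y.im p A) := by
  filter_upwards [h] with k hk
  show y.v k = π.q _ (K.im (p.fp k) (A k) (x k))
  rw [π.hq]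
  exact hk

/-! ### TOP up to an error -/

/-- TOP up to the error `ε`, for one law -/
def TopQd (Q : S.VV N) (z : Fin N) (ρ l ε : ℝ) : Prop := ∀ a b : ℝ, 0 ≤ a → a ≤ b → b ≤ l →
  h ((Q.co z).dg b) ((Q.co z).dg a ⊔ (oth Q z).dg 1) ≤ (1 - ρ) * (b - a) + ε

/-- TOP up to the error `ε` on all events of all extensions -/
def TopEd (Q : S.VV N) (z : Fin N) (ρ l ε : ℝ) : Prop := ∀ (T : Sp) (p : Pj T S) (A : ∀ k, (T.F k).Ω → Prop),
  0 < ul (T.pr A) → TopQd (Q.im p A) z ρ l ε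

theorem TopQd_zero {Q : S.VV N} {z : Fin N} {ρ l : ℝ} : TopQd Q z ρ l 0 ↔ TopQ Q z ρ l := by
  unfold TopQd TopQ
  simp only [add_zero]

theorem TopEd_zero {Q : S.VV N} {z : Fin N} {ρ l : ℝ} : TopEd Q z ρ l 0 ↔ TopE Q z ρ l :=
  ⟨fun h T p A hA => TopQd_zero.1 (h T p A hA), fun h T p A hA => TopQd_zero.2 (h T p A hA)⟩

theorem TopEd.mono {Q : S.VV N} {z : Fin N} {ρ ρ' l l' ε ε' : ℝ} (h : TopEd Q z ρ l ε) (hl : l' ≤ l)
    (hε : ε + |ρ - ρ'| * l' ≤ ε') : TopEd Q z ρ' l' ε' := by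
  intro T p A hA a b h0 hab hb
  have h1 := h T p A hA a b h0 hab (hb.trans hl)
  have h2 : (ρ' - ρ) * (b - a) ≤ |ρ - ρ'| * l' := by
    have h3 : (ρ' - ρ) * (b - a) ≤ |ρ - ρ'| * (b - a) := by
      refine mul_le_mul_of_nonneg_right ?_ (sub_nonneg.2 hab)
      rw [abs_sub_comm]
      exact le_abs_self _
    exact h3.trans (mul_le_mul_of_nonneg_left (by linarith) (abs_nonneg _))
  nlinarith

theorem TopEd.im {Q : S.VV N} {z : Fin N} {ρ l ε : ℝ} (h : TopEd Q z ρ l ε) (p : Pj T S)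
    (A : ∀ k, (T.F k).Ω → Prop) (hA : 0 < ul (T.pr A)) : TopEd (Q.im p A) z ρ l ε :=
  AllE.im (P := fun _ Q => TopQd Q z ρ l ε) h p A hA

/-- the condition TOP at rational levels suffices -/
theorem topQ_of_rat {Q : S.VV N} {z : Fin N} {ρ l : ℝ} (hq : ∀ a b : ℚ, (0 : ℝ) ≤ a → (a : ℝ) ≤ b → (b : ℝ) ≤ l →
    h ((Q.co z).dg b) ((Q.co z).dg a ⊔ (oth Q z).dg 1) ≤ (1 - ρ) * ((b : ℝ) - a)) : TopQ Q z ρ l := by
  intro a b h0 hab hb
  rcases hab.eq_or_lt with rfl | hlt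
  · rw [h_zero le_sup_left, sub_self, mul_zero]
  apply le_of_forall_pos_le_add
  intro ε hε
  set η : ℝ := ε / (2 * (|1 - ρ| + 1)) with hη
  have hc : (0 : ℝ) < |1 - ρ| + 1 := by positivity
  have hη0 : 0 < η := by positivity
  obtain ⟨b', hb1, hb2⟩ := exists_rat_btwn (max_lt hlt (show b - η < b by linarith))
  have hb3 := (le_max_left _ _).trans_lt hb1
  have hb4 := (le_max_right _ _).trans_lt hb1
  obtain ⟨a', ha0, ha1, ha2⟩ : ∃ a' : ℚ, (0 : ℝ) ≤ a' ∧ (a' : ℝ) ≤ a ∧ a - η ≤ a' := by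
    rcases h0.eq_or_lt with h1 | h1
    · exact ⟨0, by rw [Rat.cast_zero], by rw [Rat.cast_zero]; exact h0, by rw [Rat.cast_zero]; linarith⟩
    · obtain ⟨a', h2, h3⟩ := exists_rat_btwn (max_lt h1 (show a - η < a by linarith))
      exact ⟨a', ((le_max_left _ _).trans_lt h2).le, h3.le, ((le_max_right _ _).trans_lt h2).le⟩
  have h1 := hq a' b' ha0 (ha1.trans hb3.le) (hb2.le.trans hb)
  have h2 : h ((Q.co z).dg b) ((Q.co z).dg a ⊔ (oth Q z).dg 1) ≤
      h ((Q.co z).dg b) ((Q.co z).dg a' ⊔ (oth Q z).dg 1) := h_anti (sup_le_sup_right ((Q.co z).dg_mono ha1) _)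
  have h3 := h_triangle ((Q.co z).dg b) ((Q.co z).dg b') ((Q.co z).dg a' ⊔ (oth Q z).dg 1)
  have h4 : h ((Q.co z).dg b) ((Q.co z).dg b' ⊔ ((Q.co z).dg a' ⊔ (oth Q z).dg 1)) ≤
      h ((Q.co z).dg b) ((Q.co z).dg b') := h_anti le_sup_left
  have h5 := (Q.co z).h_dg_dg hb2.le
  have h6 : (1 - ρ) * ((b' : ℝ) - a') ≤ (1 - ρ) * (b - a) + |1 - ρ| * η := by
    have e : (1 - ρ) * ((b' : ℝ) - a') = (1 - ρ) * (b - a) + (1 - ρ) * ((b' - b) + (a - a')) := by ring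
    rw [e]
    have h7 : |(b' : ℝ) - b + (a - a')| ≤ η := by
      rw [abs_le]
      constructor <;> linarith
    have h8 : (1 - ρ) * ((b' : ℝ) - b + (a - a')) ≤ |1 - ρ| * η := by
      refine (le_abs_self _).trans ?_
      rw [abs_mul]
      exact mul_le_mul_of_nonneg_left h7 (abs_nonneg _)
    linarith
  have h9 : (|1 - ρ| + 1) * η = ε / 2 := by
    rw [hη]
    field_simp
  have h10 : ((1 : ℕ) : ℝ) * (b - b') ≤ η := by
    rw [Nat.cast_one, one_mul]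
    linarith
  nlinarith

/-! ### TOP as an approximate predicate -/

/-- the finite predicate of TOP at the levels `a ≤ b` -/
def topA (π : PtK K N) (z : Fin N) (a b c : ℝ) : AP K := evA (fun F x => tpF F z a b (π.q F x)) c

theorem tp_congr {π : PtK K N} {x : K.Ob S} {y : S.VV N} (h : π.Of x y) (z : Fin N) (a b : ℝ) (p : Pj T S)
    (A : ∀ k, (T.F k).Ω → Prop) : (fun k => tpF ((Sp.im p A).F k) z a b ((y.im p A).v k)) =ᶠ[UF]
      fun k => tpF ((Sp.im p A).F k) z a b (π.q ((Sp.im p A).F k) (K.imo x p A k)) := by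
  filter_upwards [h.im p A] with k hk
  rw [hk]

theorem UB_ev {f g : ℕ → ℝ} (hf : UB f) (h : f =ᶠ[UF] g) : UB g := by
  obtain ⟨C, hC⟩ := hf
  refine ⟨C, ?_⟩
  filter_upwards [hC, h] with k a b
  rw [← b]
  exact a

theorem topA_of {π : PtK K N} {x : K.Ob S} {y : S.VV N} (h : π.Of x y) {z : Fin N} {ρ l ε : ℝ} (hε : 0 ≤ ε)
    (ht : TopEd y z ρ l ε) {a b : ℝ} (h0 : 0 ≤ a) (hab : a ≤ b) (hb : b ≤ l) :
    (topA π z a b ((1 - ρ) * (b - a))).pd ε S x := by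
  refine evA_of hε fun T p A hA => ?_
  have h1 := tp_congr h z a b p A
  refine ⟨UB_ev (tpF_UB (y.im p A) z a b) h1, ?_⟩
  rw [← ul_congr h1, ← h_tpF]
  exact ht T p A hA a b h0 hab hb

theorem topA_to {π : PtK K N} {x : K.Ob S} {y : S.VV N} (h : π.Of x y) {z : Fin N} {a b c : ℝ}
    (ht : (topA π z a b c).pd 0 S x) (p : Pj T S) (A : ∀ k, (T.F k).Ω → Prop) (hA : 0 < ul (T.pr A)) :
    Pool.Agent.Helper31.EC.h (((y.im p A).co z).dg b) (((y.im p A).co z).dg a ⊔ (oth (y.im p A) z).dg 1) ≤ c := by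
  have h1 := tp_congr h z a b p A
  rw [h_tpF, ul_congr h1]
  exact evA_to ht p A hA (UB_ev (tpF_UB (y.im p A) z a b) h1)

/-- LIMITS: a diagonal of points with TOP up to `ε j` on all events of all extensions, `ε j → 0`, has TOP on all events
of all extensions -/
theorem top_diag (π : PtK K N) (z : Fin N) (ρ l : ℝ) {ε : ℕ → ℝ} (h0 : ∀ j, 0 ≤ ε j)
    (hε : Tendsto ε atTop (𝓝 0)) :
    DiagTo (fun j => π.ex fun _ y => TopEd y z ρ l (ε j)) (π.al fun _ y => TopE y z ρ l) := by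
  classical
  set r : ℕ → ℚ × ℚ := fun q => (Encodable.decode (α := ℚ × ℚ) q).getD 0 with hr
  set C : ℕ → ℕ → K.Pd := fun q j S x => (0 : ℝ) ≤ (r q).1 → ((r q).1 : ℝ) ≤ (r q).2 → ((r q).2 : ℝ) ≤ l →
    (topA π z (r q).1 (r q).2 ((1 - ρ) * (((r q).2 : ℝ) - (r q).1))).pd (ε j) S x with hC
  set C' : ℕ → K.Pd := fun q S x => (0 : ℝ) ≤ (r q).1 → ((r q).1 : ℝ) ≤ (r q).2 → ((r q).2 : ℝ) ≤ l →
    (topA π z (r q).1 (r q).2 ((1 - ρ) * (((r q).2 : ℝ) - (r q).1))).pd 0 S x with hC'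
  have h1 : ∀ q, DiagTo (C q) (C' q) := by
    intro q
    by_cases hq : (0 : ℝ) ≤ (r q).1 ∧ ((r q).1 : ℝ) ≤ (r q).2 ∧ ((r q).2 : ℝ) ≤ l
    · exact ((topA π z (r q).1 (r q).2 ((1 - ρ) * (((r q).2 : ℝ) - (r q).1))).diagTo hε).mono
        (fun j S x hx => hx hq.1 hq.2.1 hq.2.2) fun S x hx _ _ _ => hx
    · intro S x _
      exact ⟨fun _ _ _ => True, fun _ _ => Eventually.of_forall fun _ => trivial, fun J hd a b c => absurd ⟨a, b, c⟩ hq⟩
  refine (DiagTo.all h1).mono ?_ ?_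
  · rintro j S x ⟨y, hy, ht⟩ q a b c
    exact topA_of hy (h0 j) ht a b c
  · intro S x hx y hy T p A hA
    refine topQ_of_rat fun a b ha hab hb => ?_
    have h2 := hx (Encodable.encode ((a, b) : ℚ × ℚ))
    simp only [hC', hr, Encodable.encodek, Option.getD_some] at h2
    exact topA_to hy (h2 ha hab hb) p A hA

/-- TOP along any closure of classes -/
theorem with_top (π : PtK K N) (z : Fin N) (ρ l : ℝ) {ε : ℕ → ℝ} (h0 : ∀ j, 0 ≤ ε j)
    (hε : Tendsto ε atTop (𝓝 0)) {C : ℕ → K.Pd} {C' : K.Pd} (h : DiagTo C C')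
    (ht : ∀ j S x, C j S x → ∃ y : S.VV N, π.Of x y ∧ TopEd y z ρ l (ε j)) :
    DiagTo C (fun S x => C' S x ∧ ∀ y : S.VV N, π.Of x y → TopE y z ρ l) :=
  (h.and (top_diag π z ρ l h0 hε)).mono (fun j S x hx => ⟨hx, ht j S x hx⟩) fun _ _ hx => hx

section sys

variable {M : ℕ} {E : ℕ → ℕ} {ι : Type}

theorem Of_ob (s : MSys S M E ι) : (ptM M ι).Of (ob s) s.Q := Eventually.of_forall fun _ => rfl

theorem Of_obR (s : MSys S M E ι) (R : ∀ k, Setoid (S.F k).Ω) :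
    (ptR M ι).Of (Pool.Agent.Helper47.FN.obR s R) s.Q := Eventually.of_forall fun _ => rfl

theorem Of_eq {s : MSys S M E ι} {x : (KM M ι).Ob S} (h : ∀ᶠ k in UF, ob s k = x k) : (ptM M ι).Of x s.Q := by
  filter_upwards [h] with k hk
  rw [← hk]
  rfl

/-- limits of systems -/
theorem lft_top {C : ℕ → ∀ S : Sp, MSys S M E ι → Prop} {C' : ∀ S : Sp, MSys S M E ι → Prop}
    (h : DiagTo (fun j => lft (C j)) (lft C')) (z : Fin M) (ρ l : ℝ) {ε : ℕ → ℝ} (h0 : ∀ j, 0 ≤ ε j)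
    (hε : Tendsto ε atTop (𝓝 0)) (ht : ∀ j S s, C j S s → TopEd s.Q z ρ l (ε j)) :
    DiagTo (fun j => lft (C j)) (lft fun S s => C' S s ∧ TopE s.Q z ρ l) := by
  refine (with_top (ptM M ι) z ρ l h0 hε h ?_).mono (fun _ _ _ hx => hx) ?_
  · rintro j S x ⟨s, hs, hC⟩
    exact ⟨s.Q, Of_eq hs, ht j S s hC⟩
  · rintro S x ⟨⟨s, hs, hC⟩, hx⟩
    exact ⟨s, hs, hC, hx s.Q (Of_eq hs)⟩

/-- limits of systems with a partition (also with countably many types) -/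
theorem lftR_top {C : ℕ → ∀ S : Sp, MSys S M E ι → (∀ k, Setoid (S.F k).Ω) → Prop}
    {C' : ∀ S : Sp, MSys S M E ι → (∀ k, Setoid (S.F k).Ω) → Prop}
    (h : DiagTo (fun j => Pool.Agent.Helper47.FN.lftR (C j)) (Pool.Agent.Helper47.FN.lftR C')) (z : Fin M) (ρ l : ℝ)
    {ε : ℕ → ℝ} (h0 : ∀ j, 0 ≤ ε j) (hε : Tendsto ε atTop (𝓝 0))
    (ht : ∀ j S s R, C j S s R → TopEd s.Q z ρ l (ε j)) :
    DiagTo (fun j => Pool.Agent.Helper47.FN.lftR (C j))
      (Pool.Agent.Helper47.FN.lftR fun S s R => C' S s R ∧ TopE s.Q z ρ l) := by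
  refine (with_top (ptR M ι) z ρ l h0 hε h ?_).mono (fun _ _ _ hx => hx) ?_
  · rintro j S x ⟨s, R, hs, hR, hC⟩
    exact ⟨s.Q, hs.1, ht j S s R hC⟩
  · rintro S x ⟨⟨s, R, hs, hR, hC⟩, hx⟩
    exact ⟨s, R, hs, hR, hC, hx s.Q hs.1⟩

end sys

end

end Pool.Agent.Helper63.SCN
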