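import Pool.Agent.Helper63.SCN.Cor

/-! ROW `SCN` of `Helper94/SEL/St`: the second corner gives a member of the class K. -/

set_option autoImplicit false

namespace Pool.Agent.Helper63.SCN

open Finset Filter Topology Matrix Pool.Agent.Helper69.RK Pool.Agent.Helper31.EC Pool.Agent.Helper31.EC.Sp
open Pool.Agent.Helper40.EL Pool.Agent.Helper89.LX Pool.Agent.Helper84.MT
open Pool.Agent.Helper36.AM
open Pool.Agent.Helper29.MX (Rsl KLb volKO volP Pt rover pfx)
open Pool.Agent.Helper94.SEL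

noncomputable section

/-- **ROW `SCN`** -/
theorem scn {M : ℕ} {gb : ℕ → ℕ → ℝ → ℕ} (hT : TGR M) (hC : CORN M gb) : SCN M gb := by
  intro A C v ctx m g r e0 ρ0 w0 TT hF
  obtain ⟨TT', -, ⟨S, s, R, hs⟩, hTT'⟩ := Pool.Agent.Helper52.MW.rigx M g r TT hF.cls
    (fun S s R h => (hF.cl S s R h).1.2.1) hF.ne
  obtain ⟨h1, h2⟩ := hTT' S s R hs
  have hw1 := hF.w1
  have hw : 0 < w0 := one_pos.trans_le hw1
  have hP : Pt s R := (hF.cl S s R h1).1.2.1
  have htot : ∀ c' : ℝ, 0 ≤ c' → w0 * c' < 1 → tot s R c' = w0 * c' := hF.tot S s R h1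
  have hrig : Pool.Agent.Helper29.MX.AllE (fun _ s' R' => ∀ c' : ℝ, 0 ≤ c' → c' ≤ 1 →
      ∀ (j : ℕ) (hj : j ≤ M + 1), num s' R' hj c' = num s R hj c') S s R := fun T q A hA c' hc0 hc1 j hj =>
    ((h2 T q A hA).1 c' j hj hc0 hc1).1
  have hD : StepE s.Q (Fin.last M) (dz s.Q) := stepE_dz fun T q A hA a b ha hab hb => (h2 T q A hA).2 a b ha hab hb
  have hB : BK (C m) v g r e0 (1 / w0) S s R := by
    refine ⟨(hF.cl S s R h1).1, (hF.cl S s R h1).2.1, (hF.cl S s R h1).2.2, fun T p A hA => ?_,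
      fun T q A hA c hc0 hcb j hj => hrig T q A hA c hc0 ?_ j hj⟩
    · have h3 := hF.tot _ _ _ (hF.cls.1 S s R h1 T p A hA) 0 le_rfl (by rw [mul_zero]; exact one_pos)
      rw [mul_zero] at h3
      have h4 : ((M + 1 : ℕ) : ℝ) - volKO (s.im p A hA) R 0 = 0 := h3
      show ((M + 1 : ℕ) : ℝ) - 0 ≤ volKO (s.im p A hA) R 0
      linarith
    · exact hcb.le.trans ((div_le_one hw).2 hw1)
  obtain ⟨c, D', hc0, hc1, hD0, hD1, hd⟩ := exists_corner ctx.st hP hw1 htot hD hF.rho (hF.dfc S s R h1)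
  have hl : w0 * (w0 * (1 / (2 * w0 ^ 2))) = 1 / 2 := by
    field_simp
  have hl0 : 0 < 1 / (2 * w0 ^ 2) := by positivity
  refine ⟨⟨1 - D', 1 / (2 * w0 ^ 2), w0, by linarith, by linarith, hl0, hw1, by rw [hl]; norm_num⟩, rfl, ?_⟩
  have hcw : w0 * c < 1 := by linarith
  have hcb : c < 1 / w0 := by
    rw [lt_div_iff₀ hw, mul_comm]
    exact hcw
  have hcl : c < 1 := hcb.trans_le ((div_le_one hw).2 hw1)
  have htc : tot s R c = w0 * c := htot c hc0.le hcw
  have hder : HasDerivAt (fun c => tot s R c) w0 c := by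
    have h3 : HasDerivAt (fun c : ℝ => w0 * c) w0 c := by
      have h4 := (hasDerivAt_id c).const_mul w0
      rw [mul_one] at h4
      exact h4
    refine h3.congr_of_eventuallyEq ?_
    have h5 : Set.Ioo 0 (1 / w0) ∈ 𝓝 c := isOpen_Ioo.mem_nhds ⟨hc0, hcb⟩
    filter_upwards [h5] with x hx
    refine htot x hx.1.le ?_
    have h6 := (lt_div_iff₀ hw).1 hx.2
    rw [mul_comm]
    exact h6
  obtain ⟨S', t, R', ht, -⟩ := hC A C v ctx m g r e0 (1 / w0) (w0 + 1)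
    ⟨1 - D', 1 / (2 * w0 ^ 2), w0, by linarith, by linarith, hl0, hw1, by rw [hl]; norm_num⟩ S s R hB c w0
    (fun _ => 0) ∅ hc0 hcb hcl
    ⟨1 / 2, by norm_num, hT A C v ctx m g r e0 (1 / w0) S s R hB c (1 / 2) hc0.le hcb hcl (by norm_num)
      (by rw [htc]; linarith)⟩
    (by rw [htc]; nlinarith)
    (fun ε hε => topz_scn ctx.st hP hw1 hrig htot hD hc0 hcw hd (mul_pos hw hl0) (by
      show w0 * (w0 * (1 / (2 * w0 ^ 2))) < 1
      rw [hl]
      norm_num) hε)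
    hder le_rfl (fun j hj => absurd hj (Set.notMem_empty j))
  exact ⟨S', t, R', ht⟩

end

end Pool.Agent.Helper63.SCN
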