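import Pool.Agent.Helper63.SCN.Dg
import Pool.Agent.Helper52.GF.Krb

/-! THE NUMBER `D b = h(z_b | P_1)` OF A ROBUST CLASS: it depends only on the class; `h(z_b | z_a, P_1) = D b - D a`;
difference quotients of `D`. -/

set_option autoImplicit false

namespace Pool.Agent.Helper63.SCN

open Finset Filter Topology Pool.Agent.Helper69.RK Pool.Agent.Helper31.EC Pool.Agent.Helper31.EC.Sp
open Pool.Agent.Helper40.EL Pool.Agent.Helper89.LX Pool.Agent.Helper84.MT Pool.Agent.Helper49.MD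
open Pool.Agent.Helper77.TPX Pool.Agent.Helper52.GF

noncomputable section

variable {S T : Sp} {M : ℕ} {E : ℕ → ℕ} {ι : Type}

theorem hxs_cl (A : S.Inf) : ul (hxs fun k => fc (A.1 k)) = H (cl A) := by
  rw [H_cl]
  refine ul_congr (Eventually.of_forall fun k => ?_)
  unfold hxs Sp.rt
  rw [H_fc]
  congr 1
  apply (S.F k).e_congr_right
  intro ω ω' _ _
  exact ⟨fun h => ⟨trivial, h⟩, fun h => h.2⟩

/-- below level one the cells of the point and the cells of `z` agree, over the other coordinates -/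
theorem co_sup_oth {N : ℕ} (Q : S.VV N) (z : Fin N) {b : ℝ} (hb : b ≤ 1) :
    (Q.co z).dg b ⊔ (oth Q z).dg 1 = Q.dg b ⊔ (oth Q z).dg 1 := by
  apply le_antisymm
  · exact sup_le_sup_right (VV.co_dg_le Q z b) _
  · refine sup_le ?_ le_sup_right
    apply VV.dg_le_dg2 _ _ _ _ _ _ (fun _ _ => True) Typ_true (fun _ => 1) (S.Sub_const zero_le_one)
    refine Eventually.of_forall fun k ω ω' _ _ _ _ _ g g' i => ?_
    rw [one_mul]
    by_cases hi : i = z
    · subst hi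
      exact g 0
    · have h1 : |(if i = z then (0 : ℝ) else Q.v k ω i) - (if i = z then 0 else Q.v k ω' i)| ≤ S.dl 1 k := g' i
      rw [if_neg hi, if_neg hi] at h1
      exact h1.trans (S.dl_anti hb k)

theorem ker_oth {N : ℕ} (Q : S.VV N) (z : Fin N) (P : Fin N → Prop) (hP : ∀ j, P j ↔ j ≠ z) (a : ℝ) (k : ℕ) :
    (Setoid.ker fun ω (j : {j : Fin N // P j}) => Q.cellv a k ω j.1) = Setoid.ker ((oth Q z).cellv a k) := by
  ext ω ω'
  rw [Setoid.ker_def, Setoid.ker_def]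
  constructor
  · intro h1
    funext i
    show ⌊(if i = z then (0 : ℝ) else Q.v k ω i) / S.dl a k⌋ = ⌊(if i = z then (0 : ℝ) else Q.v k ω' i) / S.dl a k⌋
    by_cases hi : i = z
    · rw [if_pos hi, if_pos hi]
    · rw [if_neg hi, if_neg hi]
      exact congrFun h1 ⟨i, (hP i).2 hi⟩
  · intro h1
    funext j
    have hj := (hP j.1).1 j.2
    have h2 : ⌊(if j.1 = z then (0 : ℝ) else Q.v k ω j.1) / S.dl a k⌋ =
        ⌊(if j.1 = z then (0 : ℝ) else Q.v k ω' j.1) / S.dl a k⌋ := congrFun h1 j.1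
    rw [if_neg hj, if_neg hj] at h2
    exact h2

/-- `h(z_b | z_a, P_1)` is an increment -/
theorem h_step {N : ℕ} (Q : S.VV N) (z : Fin N) {a b : ℝ} (hab : a ≤ b) :
    h ((Q.co z).dg b) ((Q.co z).dg a ⊔ (oth Q z).dg 1) =
      h ((Q.co z).dg b) ((oth Q z).dg 1) - h ((Q.co z).dg a) ((oth Q z).dg 1) := by
  unfold Pool.Agent.Helper31.EC.h
  rw [← sup_assoc, sup_eq_left.mpr ((Q.co z).dg_mono hab)]
  ring

section rob

variable [Encodable ι] {K : FK} {m : Km K (KM M ι)}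

/-- THE NUMBER of a robust class -/
def dnm (C : KC M) (z : Fin M) (b : ℝ) : ℝ := C.b (Sum.inr (some z)) none (1, b) - C.b (Sum.inl {z}ᶜ) none (1, 0)

theorem kv_dnm {Y : ℕ → Pt K (isK E m)} {V W : ℕ → Pu K} {C : KC M} {x : K.Ob S} (hx : KV m Y V W C x)
    {s : MSys S M E ι} (hs : Giv s (m.o x)) (z : Fin M) {b : ℝ} (hb : b ≤ 1) :
    h ((s.Q.co z).dg b) ((oth s.Q z).dg 1) = dnm C z b := by
  have h1 : H ((oth s.Q z).dg 1) = C.b (Sum.inl {z}ᶜ) none (1, 0) := by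
    rw [← hx.pb (Sum.inl {z}ᶜ) none (1, 0), iv_c0 _ hx.mem]
    unfold VV.dg
    rw [io_eq ((oth s.Q z).bdd 1), ← hxs_cl]
    refine ul_congr ?_
    filter_upwards [pqs_pt (E := E) hs (fun j => j ∈ ({z}ᶜ : Set (Fin M))) 1] with k hk
    have e1 : (pty E m Y (Sum.inl {z}ᶜ) none (1, 0)).pt x k =
        (pqs M E ι (fun j => j ∈ ({z}ᶜ : Set (Fin M))) 1).pt (m.o x) k := rfl
    unfold hxs
    rw [e1, hk, ker_oth s.Q z (fun j => j ∈ ({z}ᶜ : Set (Fin M))) (fun j => Iff.rfl) 1 k]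
    rfl
  have h2 : H (s.Q.dg b ⊔ (oth s.Q z).dg 1) = C.b (Sum.inr (some z)) none (1, b) := by
    rw [← hx.pb (Sum.inr (some z)) none (1, b), iv_c0 _ hx.mem]
    unfold VV.dg
    rw [io_eq ((oth s.Q z).bdd 1), io_eq (s.Q.bdd b), ← cl_sup, ← hxs_cl]
    refine ul_congr ?_
    filter_upwards [pq2_pt (E := E) hs z 1 b] with k hk
    have e1 : (pty E m Y (Sum.inr (some z)) none (1, b)).pt x k = (pq2 M E ι z 1 b).pt (m.o x) k := rfl
    unfold hxs
    rw [e1, hk]
    unfold Pool.Agent.Helper36.AM.cel2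
    rw [ker_oth s.Q z (fun j => j ≠ z) (fun j => Iff.rfl) 1 k]
    rfl
  unfold Pool.Agent.Helper31.EC.h dnm
  rw [co_sup_oth s.Q z hb, h1, h2]

/-- `h(z_b | z_a, P_1) = D b - D a` -/
theorem kv_step {Y : ℕ → Pt K (isK E m)} {V W : ℕ → Pu K} {C : KC M} {x : K.Ob S} (hx : KV m Y V W C x)
    {s : MSys S M E ι} (hs : Giv s (m.o x)) (z : Fin M) {a b : ℝ} (hab : a ≤ b) (hb : b ≤ 1) :
    h ((s.Q.co z).dg b) ((s.Q.co z).dg a ⊔ (oth s.Q z).dg 1) = dnm C z b - dnm C z a := by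
  rw [h_step s.Q z hab, kv_dnm hx hs z hb, kv_dnm hx hs z (hab.trans hb)]

end rob

/-! ### properties of increments -/

/-- the increments of `h(z_b | P_1)` on all events of all extensions are those of `D` -/
def StepE {N : ℕ} (Q : S.VV N) (z : Fin N) (D : ℝ → ℝ) : Prop := ∀ (T : Sp) (p : Pj T S)
  (A : ∀ k, (T.F k).Ω → Prop), 0 < ul (T.pr A) → ∀ a b : ℝ, a ≤ b → b ≤ 1 →
  h (((Q.im p A).co z).dg b) (((Q.im p A).co z).dg a ⊔ (oth (Q.im p A) z).dg 1) = D b - D a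

theorem StepE.im {N : ℕ} {Q : S.VV N} {z : Fin N} {D : ℝ → ℝ} (h : StepE Q z D) (p : Pj T S)
    (A : ∀ k, (T.F k).Ω → Prop) (hA : 0 < ul (T.pr A)) : StepE (Q.im p A) z D :=
  AllE.im (P := fun _ Q => ∀ a b : ℝ, a ≤ b → b ≤ 1 →
    Pool.Agent.Helper31.EC.h ((Q.co z).dg b) ((Q.co z).dg a ⊔ (oth Q z).dg 1) = D b - D a) h p A hA

/-- there is always an extension and an event: everything -/
theorem StepE.exists_one {N : ℕ} {Q : S.VV N} {z : Fin N} {D : ℝ → ℝ} (h : StepE Q z D) :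
    ∃ (T : Sp) (Q' : T.VV N), ∀ a b : ℝ, a ≤ b → b ≤ 1 →
      Pool.Agent.Helper31.EC.h ((Q'.co z).dg b) ((Q'.co z).dg a ⊔ (oth Q' z).dg 1) = D b - D a := by
  have h1 : ∀ k, (S.F k).pb (fun _ => True) = 1 := by
    intro k
    unfold FSp.pb
    have e : res (S.F k).μ (fun _ => True) = (S.F k).μ := by
      funext ω
      exact res_pos _ _ _ trivial
    rw [e]
    exact (S.F k).ms
  have h2 : 0 < ul (S.pr fun _ _ => True) := by
    have e : S.pr (fun _ _ => True) = fun _ => 1 := funext h1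
    rw [e, ul_const]
    exact one_pos
  exact ⟨_, Q.im (Pj.id S) fun _ _ => True, h S (Pj.id S) (fun _ _ => True) h2⟩

section
variable {N : ℕ} {Q : S.VV N} {z : Fin N} {D : ℝ → ℝ}

theorem StepE.mono (h : StepE Q z D) {a b : ℝ} (hab : a ≤ b) (hb : b ≤ 1) : D a ≤ D b := by
  obtain ⟨T, Q', h1⟩ := h.exists_one
  have h2 := h1 a b hab hb
  have h3 := h_nonneg ((Q'.co z).dg b) ((Q'.co z).dg a ⊔ (oth Q' z).dg 1)
  linarith

theorem StepE.le (h : StepE Q z D) {a b : ℝ} (hab : a ≤ b) (hb : b ≤ 1) : D b - D a ≤ b - a := by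
  obtain ⟨T, Q', h1⟩ := h.exists_one
  rw [← h1 a b hab hb]
  refine (h_anti le_sup_left).trans (((Q'.co z).h_dg_dg hab).trans (le_of_eq ?_))
  rw [Nat.cast_one, one_mul]

theorem StepE.nonpos (h : StepE Q z D) {a b : ℝ} (ha : a ≤ 0) (hb : b ≤ 0) : D a = D b := by
  obtain ⟨T, Q', h1⟩ := h.exists_one
  have key : ∀ a : ℝ, a ≤ 0 → D 0 = D a := by
    intro a ha
    have h2 := h1 a 0 ha zero_le_one
    rw [(Q'.co z).dg_nonpos le_rfl, h_zero bot_le] at h2
    linarith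
  rw [← key a ha, key b hb]

end

/-- the increments of a member of a robust class -/
theorem stepE_of [Encodable ι] {K : FK} {m : Km K (KM M ι)} {Y : ℕ → Pt K (isK E m)} {V W : ℕ → Pu K} {C : KC M}
    {B : K.Pd} (hB : ImCl B) (hR : RbK m Y V W B C) {x : K.Ob S} (hx : B S x) {s : MSys S M E ι} (hs : Giv s (m.o x))
    (z : Fin M) : StepE s.Q z (dnm C z) := by
  intro T p A hA a b hab hb
  have h1 : Giv (s.im p A hA) (m.o (K.imo x p A)) := by
    rw [m.o_imo]
    exact ⟨hs.1.mono fun k hk => hk, fun i => (hs.2 i).mono fun k hk => hk⟩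
  exact kv_step (s := s.im p A hA) (hR _ _ (hB S x hx T p A hA)) h1 z hab hb

/-! ### difference quotients -/

/-- the increments of `D` near a point of differentiability, uniformly -/
theorem quot_le {D : ℝ → ℝ} {v D' : ℝ} (hD : HasDerivAt D D' v) {l : ℝ} (hl : 0 ≤ l) {δ : ℝ} (hδ : 0 < δ) :
    ∀ᶠ e in 𝓝[>] (0 : ℝ), ∀ a b : ℝ, 0 ≤ a → a ≤ b → b ≤ l →
      (D (v + e * b) - D (v + e * a)) / e ≤ D' * (b - a) + δ := by
  set η : ℝ := δ / (2 * (l + 1)) with hη
  have hη0 : 0 < η := by positivity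
  have h1 : ∀ᶠ x in 𝓝 v, |D x - D v - (x - v) * D'| ≤ η * |x - v| := by
    have h2 := (hasDerivAt_iff_isLittleO.1 hD).bound hη0
    filter_upwards [h2] with x hx
    simpa only [Real.norm_eq_abs, smul_eq_mul] using hx
  obtain ⟨r, hr, h2⟩ := Metric.eventually_nhds_iff.1 h1
  have h3 : ∀ᶠ e in 𝓝[>] (0 : ℝ), e < r / (l + 1) := by
    have : Set.Iio (r / (l + 1)) ∈ 𝓝 (0 : ℝ) := Iio_mem_nhds (by positivity)
    exact mem_nhdsWithin_of_mem_nhds this
  filter_upwards [h3, self_mem_nhdsWithin] with e he he0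
  have he0' : 0 < e := he0
  intro a b ha hab hb
  have key : ∀ x : ℝ, 0 ≤ x → x ≤ l → |D (v + e * x) - D v - e * x * D'| ≤ η * (e * l) := by
    intro x hx hxl
    have h4 : e * x < r := by
      have h5 : e * x ≤ e * (l + 1) := mul_le_mul_of_nonneg_left (by linarith) he0'.le
      rw [lt_div_iff₀ (by linarith)] at he
      linarith
    have h5 : dist (v + e * x) v < r := by
      rw [Real.dist_eq, add_sub_cancel_left, abs_of_nonneg (by positivity)]
      exact h4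
    have h6 := h2 h5
    rw [add_sub_cancel_left, abs_of_nonneg (show 0 ≤ e * x by positivity)] at h6
    exact h6.trans (mul_le_mul_of_nonneg_left (mul_le_mul_of_nonneg_left hxl he0'.le) hη0.le)
  have h4 := abs_le.1 (key a ha (hab.trans hb))
  have h5 := abs_le.1 (key b (ha.trans hab) hb)
  rw [div_le_iff₀ he0']
  have h6 : η * l ≤ δ / 2 := by
    rw [hη, div_mul_eq_mul_div, div_le_div_iff₀ (by positivity) (by positivity)]
    nlinarith
  nlinarith [h4.1, h5.2, mul_le_mul_of_nonneg_left h6 he0'.le]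

end

end Pool.Agent.Helper63.SCN
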