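import Mathlib

/-! THE SECOND CORNER OF `FIRST` (row (b) of helper77): a point at which the last exponent moves with positive speed and
the digits of the last coordinate have a density less than one. -/

set_option autoImplicit false

namespace Pool.Agent.Helper63.SCN

open Set MeasureTheory Filter Topology

/-- Lipschitz functions of one real variable map null sets to null sets -/
theorem null_image {f : ℝ → ℝ} {s : Set ℝ} {K : NNReal} (hf : LipschitzOnWith K f s) (hs : volume s = 0) :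
    volume (f '' s) = 0 := by
  have h1 := hf.hausdorffMeasure_image_le (d := 1) zero_le_one
  rw [hausdorffMeasure_real, hs, mul_zero] at h1
  exact le_antisymm h1 zero_le

/-- the image of the critical points is a null set -/
theorem null_crit {f : ℝ → ℝ} {s : Set ℝ} (hf : ∀ x ∈ s, HasDerivAt f 0 x) : volume (f '' s) = 0 := by
  refine addHaar_image_eq_zero_of_det_fderivWithin_eq_zero (μ := volume) (f' := fun _ => 0)
    (fun x hx => ?_) (fun x hx => ?_)
  · have h := (hf x hx).hasFDerivAt.hasFDerivWithinAt (s := s)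
    have e : ContinuousLinearMap.toSpanSingleton ℝ (0 : ℝ) = (0 : ℝ →L[ℝ] ℝ) := by
      ext
      simp
    rw [e] at h
    exact h
  · rw [ContinuousLinearMap.det]
    simp

/-- monotone with increments at most `K` times: Lipschitz -/
theorem lip_of_inc {f : ℝ → ℝ} {a b K : ℝ} (hK : 0 ≤ K)
    (h : ∀ x y, a ≤ x → x ≤ y → y ≤ b → 0 ≤ f y - f x ∧ f y - f x ≤ K * (y - x)) :
    LipschitzOnWith (Real.toNNReal K) f (Icc a b) := by
  refine LipschitzOnWith.of_dist_le_mul fun x hx y hy => ?_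
  rw [Real.dist_eq, Real.dist_eq, Real.coe_toNNReal K hK]
  rcases le_total x y with hxy | hxy
  · obtain ⟨h1, h2⟩ := h x y hx.1 hxy hy.2
    rw [abs_sub_comm (f x), abs_sub_comm x, abs_of_nonneg h1, abs_of_nonneg (sub_nonneg.mpr hxy)]
    exact h2
  · obtain ⟨h1, h2⟩ := h y x hy.1 hxy hx.2
    rw [abs_of_nonneg h1, abs_of_nonneg (sub_nonneg.mpr hxy)]
    exact h2

/-- derivatives of functions which are monotone on an interval are nonnegative -/
theorem deriv_nn {f : ℝ → ℝ} {a b c m : ℝ} (hc : c ∈ Ioo a b)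
    (h : ∀ x y, a ≤ x → x ≤ y → y ≤ b → 0 ≤ f y - f x) (hd : HasDerivAt f m c) : 0 ≤ m := by
  by_contra hm
  push Not at hm
  have h1 := hd.tendsto_slope
  have h2 : ∀ᶠ x in 𝓝[≠] c, slope f c x < 0 := h1.eventually (gt_mem_nhds hm)
  have h3 : ∀ᶠ x in 𝓝[≠] c, x ∈ Ioo a b := (isOpen_Ioo.mem_nhds hc : Ioo a b ∈ 𝓝 c) |> fun hh =>
    mem_nhdsWithin_of_mem_nhds hh
  obtain ⟨x, ⟨hx1, hx2⟩, hx3⟩ := ((h2.and h3).and self_mem_nhdsWithin).exists
  have hne : x ≠ c := hx3
  rcases lt_or_gt_of_ne hne with hlt | hgt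
  · have h4 := h x c hx2.1.le hlt.le hc.2.le
    rw [slope_def_field] at hx1
    have h5 : 0 ≤ (f x - f c) / (x - c) := div_nonneg_of_nonpos (by linarith) (by linarith)
    linarith
  · have h4 := h c x hc.1.le hgt.le hx2.2.le
    rw [slope_def_field] at hx1
    have h5 : 0 ≤ (f x - f c) / (x - c) := div_nonneg (by linarith) (by linarith)
    linarith

/-- a function which is Lipschitz on an interval is differentiable at almost all points -/
theorem ae_diff {f : ℝ → ℝ} {a b : ℝ} {K : NNReal} (h : LipschitzOnWith K f (Icc a b)) :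
    ∀ᵐ x : ℝ, x ∈ Ioo a b → DifferentiableAt ℝ f x := by
  have h1 := (h.mono Ioo_subset_Icc_self).ae_differentiableWithinAt_of_mem_real
  filter_upwards [h1] with x hx hm
  exact (hx hm).differentiableAt (isOpen_Ioo.mem_nhds hm)

/-- THE SECOND CORNER. `v c`: exponent of the last coordinate over the others at the window `c` (monotone, Lipschitz);
`D b`: entropy of the digits up to the level `b` of the last coordinate given all digits of the others (monotone,
increments at most `b - a`), with a deficit at the level `v L`. Then there is a window at which `v` moves with positive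
speed and `D` has a density less than one; all properties which hold almost everywhere can be added. -/
theorem second_corner {L La : ℝ} (hL : 0 < L) (hLa : 0 ≤ La) {v D : ℝ → ℝ}
    (hv : ∀ x y, 0 ≤ x → x ≤ y → y ≤ L → 0 ≤ v y - v x ∧ v y - v x ≤ La * (y - x)) (hv0 : v 0 = 0)
    (hD : ∀ a b, 0 ≤ a → a ≤ b → b ≤ v L → 0 ≤ D b - D a ∧ D b - D a ≤ b - a) (hdef : D (v L) - D 0 < v L)
    {P Q : ℝ → Prop} (hP : ∀ᵐ b : ℝ, b ∈ Ioo 0 (v L) → P b) (hQ : ∀ᵐ c : ℝ, c ∈ Ioo 0 L → Q c) :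
    ∃ c v' D', c ∈ Ioo 0 L ∧ Q c ∧ v c ∈ Ioo 0 (v L) ∧ P (v c) ∧ HasDerivAt v v' c ∧ 0 < v' ∧
      HasDerivAt D D' (v c) ∧ 0 ≤ D' ∧ D' < 1 := by
  set B := v L with hB
  set g : ℝ → ℝ := fun b => b - D b with hg
  have gi : ∀ x y, 0 ≤ x → x ≤ y → y ≤ B → 0 ≤ g y - g x ∧ g y - g x ≤ 1 * (y - x) := by
    intro x y hx hxy hy
    obtain ⟨h1, h2⟩ := hD x y hx hxy hy
    simp only [hg]
    constructor <;> linarith
  have vi : ∀ x ∈ Icc 0 L, v x ∈ Icc 0 B := fun x hx => by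
    have h1 := (hv 0 x le_rfl hx.1 hx.2).1
    have h2 := (hv x L hx.1 hx.2 le_rfl).1
    rw [hv0] at h1
    exact ⟨by linarith, by linarith⟩
  have lv := lip_of_inc hLa hv
  have lg := lip_of_inc zero_le_one gi
  have hk : ContinuousOn (fun c => g (v c)) (Icc 0 L) := lg.continuousOn.comp lv.continuousOn vi
  have hlt : g (v 0) < g (v L) := by
    rw [hv0]
    simp only [hg]
    rw [← hB]
    linarith
  have iv := intermediate_value_Icc hL.le hk
  -- the exceptional sets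
  set A1 : Set ℝ := {c | c ∈ Ioo 0 L ∧ ¬ (Q c ∧ DifferentiableAt ℝ v c)} with hA1
  set A2 : Set ℝ := {c | c ∈ Ioo 0 L ∧ HasDerivAt v 0 c} with hA2
  set B1 : Set ℝ := {b | b ∈ Ioo 0 B ∧ ¬ (P b ∧ DifferentiableAt ℝ g b)} with hB1
  set B2 : Set ℝ := {b | b ∈ Ioo 0 B ∧ HasDerivAt g 0 b} with hB2
  have nA1 : volume A1 = 0 := by
    have h1 := ae_diff lv
    have h2 : ∀ᵐ c : ℝ, c ∈ Ioo 0 L → (Q c ∧ DifferentiableAt ℝ v c) := by
      filter_upwards [h1, hQ] with c h3 h4 h5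
      exact ⟨h4 h5, h3 h5⟩
    refine measure_mono_null (fun c hc => ?_) (ae_iff.mp h2)
    exact fun h => hc.2 (h hc.1)
  have nB1 : volume B1 = 0 := by
    have h1 := ae_diff lg
    have h2 : ∀ᵐ b : ℝ, b ∈ Ioo 0 B → (P b ∧ DifferentiableAt ℝ g b) := by
      filter_upwards [h1, hP] with b h3 h4 h5
      exact ⟨h4 h5, h3 h5⟩
    refine measure_mono_null (fun c hc => ?_) (ae_iff.mp h2)
    exact fun h => hc.2 (h hc.1)
  have sA1 : A1 ⊆ Icc 0 L := fun c hc => Ioo_subset_Icc_self hc.1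
  have sA2 : A2 ⊆ Icc 0 L := fun c hc => Ioo_subset_Icc_self hc.1
  have sB1 : B1 ⊆ Icc 0 B := fun c hc => Ioo_subset_Icc_self hc.1
  have sB2 : B2 ⊆ Icc 0 B := fun c hc => Ioo_subset_Icc_self hc.1
  have ivA1 : v '' A1 ⊆ Icc 0 B := fun y hy => by
    obtain ⟨c, hc, rfl⟩ := hy
    exact vi c (sA1 hc)
  have ivA2 : v '' A2 ⊆ Icc 0 B := fun y hy => by
    obtain ⟨c, hc, rfl⟩ := hy
    exact vi c (sA2 hc)
  have m1 : volume (g '' (v '' A1)) = 0 := null_image (lg.mono ivA1) (null_image (lv.mono sA1) nA1)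
  have m2 : volume (g '' (v '' A2)) = 0 := null_image (lg.mono ivA2) (null_crit fun c hc => hc.2)
  have m3 : volume (g '' B1) = 0 := null_image (lg.mono sB1) nB1
  have m4 : volume (g '' B2) = 0 := null_crit fun c hc => hc.2
  have m5 : volume (g '' (v '' A1) ∪ g '' (v '' A2) ∪ g '' B1 ∪ g '' B2) = 0 :=
    measure_union_null (measure_union_null (measure_union_null m1 m2) m3) m4
  have m6 : ¬ (Ioo (g (v 0)) (g (v L)) ⊆ g '' (v '' A1) ∪ g '' (v '' A2) ∪ g '' B1 ∪ g '' B2) := by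
    intro hs
    have h1 := measure_mono_null hs m5
    rw [Real.volume_Ioo, ENNReal.ofReal_eq_zero] at h1
    linarith
  obtain ⟨y, hy, hn⟩ := not_subset.mp m6
  obtain ⟨c, hc, hcy⟩ := iv (Ioo_subset_Icc_self hy)
  have hcy' : g (v c) = y := hcy
  have hc0 : c ≠ 0 := fun h => by
    rw [h] at hcy'
    exact absurd hcy' (ne_of_lt hy.1)
  have hcL : c ≠ L := fun h => by
    rw [h] at hcy'
    exact absurd hcy'.symm (ne_of_lt hy.2)
  have hcc : c ∈ Ioo 0 L := ⟨lt_of_le_of_ne hc.1 (Ne.symm hc0), lt_of_le_of_ne hc.2 hcL⟩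
  have hvc := vi c hc
  have hv0' : v c ≠ 0 := fun h => by
    rw [h] at hcy'
    rw [hv0] at hy
    exact absurd hcy' (ne_of_lt hy.1)
  have hvB : v c ≠ B := fun h => by
    rw [h, hB] at hcy'
    exact absurd hcy'.symm (ne_of_lt hy.2)
  have hvv : v c ∈ Ioo 0 B := ⟨lt_of_le_of_ne hvc.1 (Ne.symm hv0'), lt_of_le_of_ne hvc.2 hvB⟩
  rw [mem_union, mem_union, mem_union] at hn
  push Not at hn
  obtain ⟨⟨⟨n1, n2⟩, n3⟩, n4⟩ := hn
  have q1 : Q c ∧ DifferentiableAt ℝ v c := by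
    by_contra h
    exact n1 ⟨v c, ⟨c, ⟨hcc, h⟩, rfl⟩, hcy'⟩
  have q2 : ¬ HasDerivAt v 0 c := fun h => n2 ⟨v c, ⟨c, ⟨hcc, h⟩, rfl⟩, hcy'⟩
  have q3 : P (v c) ∧ DifferentiableAt ℝ g (v c) := by
    by_contra h
    exact n3 ⟨v c, ⟨hvv, h⟩, hcy'⟩
  have q4 : ¬ HasDerivAt g 0 (v c) := fun h => n4 ⟨v c, ⟨hvv, h⟩, hcy'⟩
  have d1 := q1.2.hasDerivAt
  have d2 := q3.2.hasDerivAt
  have e1 : 0 ≤ deriv v c := deriv_nn hcc (fun x y h1 h2 h3 => (hv x y h1 h2 h3).1) d1
  have e2 : 0 ≤ deriv g (v c) := deriv_nn hvv (fun x y h1 h2 h3 => (gi x y h1 h2 h3).1) d2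
  have e3 : deriv v c ≠ 0 := fun h => q2 (by rw [← h]; exact d1)
  have e4 : deriv g (v c) ≠ 0 := fun h => q4 (by rw [← h]; exact d2)
  have d3 : HasDerivAt D (1 - deriv g (v c)) (v c) := by
    have h := (hasDerivAt_id (v c)).sub d2
    refine h.congr_of_eventuallyEq (Eventually.of_forall fun b => ?_)
    simp [hg]
  have e5 : 0 ≤ 1 - deriv g (v c) := deriv_nn hvv (fun x y h1 h2 h3 => (hD x y h1 h2 h3).1) d3
  exact ⟨c, deriv v c, 1 - deriv g (v c), hcc, q1.1, hvv, q3.1, d1, lt_of_le_of_ne e1 (Ne.symm e3), d3, e5,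
    by linarith [lt_of_le_of_ne e2 (Ne.symm e4)]⟩

end Pool.Agent.Helper63.SCN
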