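import Pool.Agent.Helper63.SCN.Fin
import Pool.Agent.Helper49.KL.Limr
import Pool.Agent.Helper71.VIS.Ttn
import Pool.Agent.Helper77.TPX.Row
import Pool.Agent.Helper84.SEL.Numx

/-! ROWS `LIMX` and `SCN` without hypotheses. -/

set_option autoImplicit false

namespace Pool.Agent.Helper63.SCN

theorem limx_all (M : ℕ) : Pool.Agent.Helper94.SEL.LIMX M :=
  Pool.Agent.Helper49.KL.limx (Pool.Agent.Helper71.VIS.trnx (Pool.Agent.Helper84.SEL.numx M))
    (Pool.Agent.Helper25.DX.tgr M) (Pool.Agent.Helper63.ZMX.zoomx_all M) (Pool.Agent.Helper77.TPX.topf M)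

theorem scn_all (M : ℕ) : Pool.Agent.Helper94.SEL.SCN M (Pool.Agent.Helper82.RZS.gb M) :=
  scn_limx (limx_all M)

end Pool.Agent.Helper63.SCN
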