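import Pool.Agent.Helper63.SCN.Topz

/-! THE SECOND CORNER, existence: a window at which the digits of the last coordinate have a density less than one. -/

set_option autoImplicit false

namespace Pool.Agent.Helper63.SCN

open Finset Filter Topology Matrix Pool.Agent.Helper69.RK Pool.Agent.Helper31.EC Pool.Agent.Helper31.EC.Sp
open Pool.Agent.Helper40.EL Pool.Agent.Helper89.LX Pool.Agent.Helper84.MT
open Pool.Agent.Helper36.AM Pool.Agent.Helper77.TPX
open Pool.Agent.Helper3.LF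
open Pool.Agent.Helper29.MX (Rsl KLb volKO volP Pt rover pfx)
open Pool.Agent.Helper94.SEL (num tot lmd Top)

noncomputable section

variable {S : Sp} {M g r : ℕ}

theorem lmd_nonneg (s : MSys S (M + 1) (lin g) (Fin r)) (R : Rsl S) (c : ℝ) (j : Fin (M + 1)) : 0 ≤ lmd s R c j := by
  have h1 := Pool.Agent.Helper84.SEL.num_le s R (Nat.le_succ j) (Nat.succ_le_of_lt j.2) c
  unfold lmd
  linarith

theorem lmd_tot (s : MSys S (M + 1) (lin g) (Fin r)) (R : Rsl S) (c : ℝ) : ∑ j, lmd s R c j = tot s R c := by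
  have h1 := Pool.Agent.Helper63.ZMX.lmd_sum s R c (le_refl (M + 1))
  have h2 := (Pool.Agent.Helper84.SEL.numx M).last S (lin g) r s R c
  have h3 : ∑ i : Fin (M + 1), lmd s R c (Fin.castLE (le_refl (M + 1)) i) = ∑ j, lmd s R c j := rfl
  rw [← h3, h1, h2]

/-- the increments of one exponent are at most the increments of the total exponent -/
theorem lmd_inc {s : MSys S (M + 1) (lin g) (Fin r)} {R : Rsl S} (hst : ∀ m, m < M + 1 → STu m) (hP : Pt s R)
    {x y : ℝ} (hx : 0 ≤ x) (hxy : x ≤ y) (hy : y < 1) (j : Fin (M + 1)) :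
    0 ≤ lmd s R y j - lmd s R x j ∧ lmd s R y j - lmd s R x j ≤ tot s R y - tot s R x := by
  refine ⟨sub_nonneg.2 (lmd_mono hst hP hx hxy hy j), ?_⟩
  rw [← lmd_tot, ← lmd_tot, ← Finset.sum_sub_distrib]
  exact Finset.single_le_sum (f := fun i => lmd s R y i - lmd s R x i)
    (fun i _ => sub_nonneg.2 (lmd_mono hst hP hx hxy hy i)) (Finset.mem_univ j)

/-- **THE SECOND CORNER** -/
theorem exists_corner {s : MSys S (M + 1) (lin g) (Fin r)} {R : Rsl S} (hst : ∀ m, m < M + 1 → STu m) (hP : Pt s R)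
    {w0 : ℝ} (hw0 : 1 ≤ w0) (htot : ∀ c' : ℝ, 0 ≤ c' → w0 * c' < 1 → tot s R c' = w0 * c')
    (hD : StepE s.Q (Fin.last M) (dz s.Q)) {ρ : ℝ} (hρ : 0 < ρ)
    (hdfc : ∀ b : ℝ, 0 ≤ b → b ≤ 1 → H (s.Q.dg b) ≤ (M + 1 - ρ) * b) :
    ∃ c D' : ℝ, 0 < c ∧ w0 * c < 1 / 2 ∧ 0 ≤ D' ∧ D' < 1 ∧ HasDerivAt (dz s.Q) D' (lmd s R c (Fin.last M)) := by
  have hw : 0 < w0 := one_pos.trans_le hw0
  set L : ℝ := 1 / (2 * w0) with hL
  have hL0 : 0 < L := by positivity
  have hwL : w0 * L = 1 / 2 := by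
    rw [hL]
    field_simp
  have hL1 : L < 1 := by nlinarith
  have ht : ∀ x : ℝ, 0 ≤ x → x ≤ L → tot s R x = w0 * x := fun x h0 h1 =>
    htot x h0 (by nlinarith)
  set v : ℝ → ℝ := fun c => lmd s R c (Fin.last M) with hv
  have hvi : ∀ x y, 0 ≤ x → x ≤ y → y ≤ L → 0 ≤ v y - v x ∧ v y - v x ≤ w0 * (y - x) := by
    intro x y h0 hxy hy
    have h1 := lmd_inc hst hP h0 hxy (hy.trans_lt hL1) (Fin.last M)
    rw [ht y (h0.trans hxy) hy, ht x h0 (hxy.trans hy)] at h1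
    exact ⟨h1.1, h1.2.trans (by rw [mul_sub])⟩
  have hle : ∀ x, 0 ≤ x → x ≤ L → v x ≤ w0 * x := by
    intro x h0 h1
    rw [← ht x h0 h1, ← lmd_tot]
    exact Finset.single_le_sum (f := fun i => lmd s R x i) (fun i _ => lmd_nonneg s R x i) (Finset.mem_univ _)
  have hv0 : v 0 = 0 := by
    refine le_antisymm ?_ (lmd_nonneg s R 0 _)
    have h1 := hle 0 le_rfl hL0.le
    rw [mul_zero] at h1
    exact h1
  have hvL : v L ≤ 1 / 2 := (hle L hL0.le le_rfl).trans hwL.le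
  have hvpos : 0 < v L := by
    have h1 := (Pool.Agent.Helper84.SEL.numx M).step S (lin g) r s R L hP hL0.le hL1.le M le_rfl
    have h2 : v L = num s R le_rfl L - num s R (Nat.le_succ M) L := rfl
    have h3 : num s R (Nat.le_of_succ_le (le_refl (M + 1))) L = num s R (Nat.le_succ M) L := rfl
    rw [h2]
    linarith
  have hfull := full_oth hst hP (by rw [ht 0 le_rfl hL0.le, mul_zero])
  have hdz : ∀ b, 0 ≤ b → b ≤ 1 → dz s.Q b ≤ (1 - ρ) * b := fun b h0 h1 => dz_le hfull hdfc h0 h1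
  have hd0 : 0 ≤ dz s.Q 0 := h_nonneg _ _
  have hdef : dz s.Q (v L) - dz s.Q 0 < v L := by
    have h1 := hdz (v L) hvpos.le (by linarith)
    have h2 := mul_pos hρ hvpos
    nlinarith
  obtain ⟨c, v', D', hc, -, -, -, -, -, hd, h0, h1⟩ := second_corner (P := fun _ => True) (Q := fun _ => True) hL0
    hw.le (v := v) (D := dz s.Q) hvi hv0 (fun a b h0 hab hb => by
      have hb1 : b ≤ 1 := by linarith
      exact ⟨sub_nonneg.2 (hD.mono hab hb1), hD.le hab hb1⟩) hdef (Eventually.of_forall fun _ _ => trivial)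
    (Eventually.of_forall fun _ _ => trivial)
  refine ⟨c, D', hc.1, ?_, h0, h1, hd⟩
  rw [← hwL]
  exact mul_lt_mul_of_pos_left hc.2 hw

end

end Pool.Agent.Helper63.SCN
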