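import Pool.Agent.Helper63.SCN.Scn
import Pool.Agent.Helper63.ZMX.Fin
import Pool.Agent.Helper25.DX.Tgr
import Pool.Agent.Helper22.OC.Corn

/-! ROW `SCN`: only `LIMX` is left. -/

set_option autoImplicit false

namespace Pool.Agent.Helper63.SCN

theorem scn_limx {M : ℕ} (hL : Pool.Agent.Helper94.SEL.LIMX M) :
    Pool.Agent.Helper94.SEL.SCN M (Pool.Agent.Helper82.RZS.gb M) :=
  scn (Pool.Agent.Helper25.DX.tgr M) (Pool.Agent.Helper22.OC.corn (Pool.Agent.Helper63.ZMX.zoomx_all M) hL)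

end Pool.Agent.Helper63.SCN
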