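import Pool.Agent.Helper4.FRK.Typ
import Pool.Agent.Helper48.ROK.Nrm
import Pool.Agent.Helper84.SEL.Numx
import Pool.Agent.Helper7.RD.Pf

/-! THE EXPONENTS OF THE OPTIMAL FLAG ARE MONOTONE in the window: the exponent of the last direction of a prefix is the
mean exponent of the gradient of the optimal form in this direction, and optimal forms of larger windows dominate. -/

set_option autoImplicit false

namespace Pool.Agent.Helper63.SCN

open Finset Filter Topology Matrix Pool.Agent.Helper69.RK Pool.Agent.Helper31.EC Pool.Agent.Helper31.EC.Sp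
open Pool.Agent.Helper40.EL Pool.Agent.Helper89.LX Pool.Agent.Helper3.LF Pool.Agent.Helper84.MT
open Pool.Agent.Helper89.RAT (zx)
open Pool.Agent.Helper89.RAK (Lit KC)
open Pool.Agent.Helper89.RAD (cnA dp stD_eq zxD_eq)
open Pool.Agent.Helper36.AM (STu)
open Pool.Agent.Helper7.RD (volC volCO volC_eq optK_dom adfK_mono volCO_bdd volP_cnA cnA_le pR)
open Pool.Agent.Helper4.FRK (KO pS pq pre pre_KO pS_lit cnA_pS)
open Pool.Agent.Helper48.ROK (nrm nrm_lit nrm_fc volC_res)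
open Pool.Agent.Helper29.MX (Rsl Pt volP pfx)
open Pool.Agent.Helper94.SEL (num tot lmd)

noncomputable section

variable {S : Sp} {M D g : ℕ} {ι : Type} [Finite ι]

/-- THE EXPONENT of the last direction of a prefix, one degree -/
theorem zx_val {s : MSys S M (lin g) ι} {R : ∀ k, Setoid (S.F k).Ω} (hlit : Lit R s.Q) (hD : 1 ≤ D)
    (hst : ∀ j, j < M → ∀ r, STm D j (lin g) (Fin r)) {c : ℝ} (h0 : 0 ≤ c) (h1 : c < 1)
    {x : ∀ k, FD (S.F k) (Mon M D)} (hx : KO s R D c x) (j : Fin M) :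
    zx (pq (Nat.succ_le_of_lt j.isLt) s.Q) (Fin.last j.val) (pre (Nat.succ_le_of_lt j.isLt) x) =
      1 - (volC (KC R) (cnA s (dp R) c) (pfx s.Q (Nat.succ_le_of_lt j.isLt)) D -
        volC (KC R) (cnA s (dp R) c) (pfx s.Q j.isLt.le) D) := by
  have hx1 := pre_KO hx (Nat.succ_le_of_lt j.isLt)
  have hx0 := pre_KO hx j.isLt.le
  have e1 := zxD_eq (s := pS (Nat.succ_le_of_lt j.isLt) s) (hst j.val j.isLt) (pS_lit hlit _) (Fin.last j.val)
    (pq j.isLt.le s.Q) (fun k ω a => by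
      rw [Fin.succAbove_last]
      rfl) hD h0 h1 hx1
  have e2 := stD_eq (s := pS j.isLt.le s) (hst j.val j.isLt) (pS_lit hlit _) hD h0 h1 hx0
  have e5 : H (up1 (lb (pre (Nat.succ_le_of_lt j.isLt) x)) ((pq j.isLt.le s.Q).dg 1)) =
      vol (pS j.isLt.le s).Q D (pre j.isLt.le x) := e2.symm
  have v1 := volC_eq hx1
  have v0 := volC_eq hx0
  have c1 : volC (KC R) (cnA s (dp R) c) (pfx s.Q (Nat.succ_le_of_lt j.isLt)) D =
      vol (pS (Nat.succ_le_of_lt j.isLt) s).Q D (pre (Nat.succ_le_of_lt j.isLt) x) := by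
    rw [← v1, cnA_pS]
    rfl
  have c0 : volC (KC R) (cnA s (dp R) c) (pfx s.Q j.isLt.le) D = vol (pS j.isLt.le s).Q D (pre j.isLt.le x) := by
    rw [← v0, cnA_pS]
    rfl
  have e6 : zx (pq (Nat.succ_le_of_lt j.isLt) s.Q) (Fin.last j.val) (pre (Nat.succ_le_of_lt j.isLt) x) =
      1 - vol (pS (Nat.succ_le_of_lt j.isLt) s).Q D (pre (Nat.succ_le_of_lt j.isLt) x) +
        H (up1 (lb (pre (Nat.succ_le_of_lt j.isLt) x)) ((pq j.isLt.le s.Q).dg 1)) := e1
  rw [e6, e5, c1, c0]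
  ring

/-- the exponents are monotone, one degree -/
theorem lmd_monoD {s : MSys S M (lin g) ι} {R : ∀ k, Setoid (S.F k).Ω} (hlit : Lit R s.Q) (hD : 1 ≤ D)
    (hst : ∀ j, j < M → ∀ r, STm D j (lin g) (Fin r)) {c c' : ℝ} (h0 : 0 ≤ c) (hcc : c ≤ c') (h1 : c' < 1)
    (j : Fin M) :
    1 - (volC (KC R) (cnA s (dp R) c) (pfx s.Q (Nat.succ_le_of_lt j.isLt)) D -
        volC (KC R) (cnA s (dp R) c) (pfx s.Q j.isLt.le) D) ≤
      1 - (volC (KC R) (cnA s (dp R) c') (pfx s.Q (Nat.succ_le_of_lt j.isLt)) D -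
        volC (KC R) (cnA s (dp R) c') (pfx s.Q j.isLt.le) D) := by
  obtain ⟨x, hx⟩ := (gaq s.Q D).exists_optfK (KC R) (cnA s (dp R) c)
  obtain ⟨x', hx'⟩ := (gaq s.Q D).exists_optfK (KC R) (cnA s (dp R) c')
  rw [← zx_val hlit hD hst h0 (hcc.trans_lt h1) hx j, ← zx_val hlit hD hst (h0.trans hcc) h1 hx' j]
  have hy := pre_KO hx (Nat.succ_le_of_lt j.isLt)
  have hy' := pre_KO hx' (Nat.succ_le_of_lt j.isLt)
  have h2 := optK_dom hy' (adfK_mono hy.1 (fun i => ⟨i, cnA_le (PLe.refl _) hcc i⟩) fun _ h => h)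
  exact Pool.Agent.Helper89.RAK.DomJ.zx_le h2 hy'.1.1 hy.1.1 (Fin.last j.val)

omit [Finite ι] in
/-- the volumes in the limit of the degrees -/
theorem tend_volC {s : MSys S M (lin g) ι} {R : ∀ k, Setoid (S.F k).Ω} {c : ℝ} {j : ℕ} (hj : j ≤ M) :
    Tendsto (fun D => volC (KC R) (cnA s (dp R) c) (pfx s.Q hj) D) atTop (𝓝 (volP s R c hj)) := by
  rw [volP_cnA]
  exact tendsto_atTop_ciInf (fun D D' h => Pool.Agent.Helper84.KR.volC_deg h) volCO_bdd

/-- **THE EXPONENTS OF THE OPTIMAL FLAG ARE MONOTONE IN THE WINDOW** -/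
theorem lmd_mono {s : MSys S (M + 1) (lin g) ι} {R : Rsl S} (hst : ∀ m, m < M + 1 → STu m) (hP : Pt s R) {c c' : ℝ}
    (h0 : 0 ≤ c) (hcc : c ≤ c') (h1 : c' < 1) (j : Fin (M + 1)) : lmd s R c j ≤ lmd s R c' j := by
  classical
  have hdeg : ∃ D₂ : ℕ, ∀ D, D₂ ≤ D → ∀ m, m < M + 1 → ∀ r, STm D m (lin g) (Fin r) := by
    choose f hf using fun m : Fin (M + 1) => hst m.1 m.2 g
    refine ⟨∑ m, f m, fun D hD m hm r => hf ⟨m, hm⟩ D (le_trans ?_ hD) r⟩
    exact Finset.single_le_sum (f := f) (fun _ _ => Nat.zero_le _) (Finset.mem_univ (⟨m, hm⟩ : Fin (M + 1)))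
  obtain ⟨D₂, hD₂⟩ := hdeg
  have hfc : ∀ᶠ k in UF, fc (nrm R s.Q k) = fc (R k) := nrm_fc hP
  have hval : ∀ (c : ℝ) (m : ℕ) (hm : m ≤ M + 1) (D : ℕ), volC (KC (nrm R s.Q)) (cnA s (dp (nrm R s.Q)) c) (pfx s.Q hm) D =
      volC (KC R) (cnA s (dp R) c) (pfx s.Q hm) D := fun c m hm D => volC_res hfc _ D
  have hl : ∀ c : ℝ, Tendsto (fun D => 1 - (volC (KC R) (cnA s (dp R) c) (pfx s.Q (Nat.succ_le_of_lt j.isLt)) D -
      volC (KC R) (cnA s (dp R) c) (pfx s.Q j.isLt.le) D)) atTop (𝓝 (lmd s R c j)) := by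
    intro c
    have h2 := ((tend_volC (s := s) (R := R) (c := c) (Nat.succ_le_of_lt j.isLt)).sub
      (tend_volC (s := s) (R := R) (c := c) j.isLt.le)).const_sub 1
    have e : lmd s R c j = 1 - (volP s R c (Nat.succ_le_of_lt j.isLt) - volP s R c j.isLt.le) := by
      unfold lmd num
      push_cast
      ring
    rw [e]
    exact h2
  refine le_of_tendsto_of_tendsto (hl c) (hl c') ?_
  filter_upwards [eventually_ge_atTop (max D₂ 1)] with D hD
  have h2 := lmd_monoD (nrm_lit R s.Q) ((le_max_right _ _).trans hD)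
    (hD₂ D ((le_max_left _ _).trans hD)) h0 hcc h1 j
  rw [hval, hval, hval, hval] at h2
  exact h2

end

end Pool.Agent.Helper63.SCN
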