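import Pool.Agent.Helper63.SCN.Tpz
import Pool.Agent.Helper63.SCN.Abs
import Pool.Agent.Helper63.SCN.Lmd
import Pool.Agent.Helper63.ZMX.Num
import Pool.Agent.Helper52.MW.Rigx
import Pool.Agent.Helper4.FRK.Lit

/-! THE SECOND CORNER for rigid pairs with linear total exponent: flag zooms with TOP up to a small error. -/

set_option autoImplicit false

namespace Pool.Agent.Helper63.SCN

open Finset Filter Topology Matrix Pool.Agent.Helper69.RK Pool.Agent.Helper31.EC Pool.Agent.Helper31.EC.Sp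
open Pool.Agent.Helper40.EL Pool.Agent.Helper89.LX Pool.Agent.Helper84.MT
open Pool.Agent.Helper36.AM Pool.Agent.Helper77.TPX
open Pool.Agent.Helper3.LF
open Pool.Agent.Helper7.RD (PZ RW WZ roz)
open Pool.Agent.Helper29.MX (Rsl KLb volKO volP Pt rover pfx)
open Pool.Agent.Helper94.SEL (num tot lmd Top)

noncomputable section

variable {S : Sp} {M g r : ℕ}

/-! ### TOP of the zooms -/

/-- FLAG ZOOMS WITH SMALL UNITS at a window at which the digits of the last coordinate have the density `D' < 1` -/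
theorem topz_scn {s : MSys S (M + 1) (lin g) (Fin r)} {R : Rsl S} (hst : ∀ m, m < M + 1 → STu m) (hP : Pt s R)
    {w0 : ℝ} (hw0 : 1 ≤ w0) (hrig : Pool.Agent.Helper29.MX.AllE (fun _ s' R' => ∀ c' : ℝ, 0 ≤ c' → c' ≤ 1 →
      ∀ (j : ℕ) (hj : j ≤ M + 1), num s' R' hj c' = num s R hj c') S s R)
    (htot : ∀ c' : ℝ, 0 ≤ c' → w0 * c' < 1 → tot s R c' = w0 * c') {Dn : ℝ → ℝ} (hD : StepE s.Q (Fin.last M) Dn)
    {c D' : ℝ} (hc : 0 < c) (hc1 : w0 * c < 1) (hd : HasDerivAt Dn D' (lmd s R c (Fin.last M))) {l : ℝ} (hl0 : 0 < l)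
    (hl : w0 * l < 1) {ε : ℝ} (hε : 0 < ε) : ∃ e1 : ℝ, 0 < e1 ∧ ∀ z : RW s (M + 1),
      (∃ W : Rsl S, z.Z.l = Lab.ofZ W) → Pt z.sys (rover z.Z.l z.Z.u z.Z.hu R) → z.Z.c = c → z.Z.u < e1 →
      KLb s R c z.Z.l → Pool.Agent.Helper29.MX.Flg z (lmd s R c) → Top (1 - D') l ε z.X := by
  obtain ⟨u₀, h0, h1⟩ := Metric.eventually_nhds_iff.1 (eventually_nhdsWithin_iff.1 (quot_le hd hl0.le hε))
  have hw : 0 < w0 := one_pos.trans_le hw0
  have hwl : 0 < w0 * l := mul_pos hw hl0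
  have hl1 : l < 1 := by nlinarith
  refine ⟨min u₀ ((1 - w0 * c) / (w0 * l)), lt_min h0 (div_pos (by linarith) hwl), fun z hW hPt hzc hu hK hF => ?_⟩
  subst hzc
  obtain ⟨W, hW⟩ := hW
  have hu0 := z.Z.hu
  have hu1 : z.Z.u < u₀ := hu.trans_le (min_le_left _ _)
  have hu2 : z.Z.u * (w0 * l) < 1 - w0 * z.Z.c := (lt_div_iff₀ hwl).1 (hu.trans_le (min_le_right _ _))
  have hwin : ∀ b : ℝ, 0 ≤ b → b < l → w0 * (z.Z.c + z.Z.u * b) < 1 := by
    intro b hb hbl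
    have h3 : z.Z.u * (w0 * b) ≤ z.Z.u * (w0 * l) :=
      mul_le_mul_of_nonneg_left (mul_le_mul_of_nonneg_left hbl.le hw.le) hu0.le
    nlinarith
  have hc0 : ∀ b : ℝ, 0 ≤ b → 0 ≤ z.Z.c + z.Z.u * b := fun b hb => add_nonneg hc.le (mul_nonneg hu0.le hb)
  have hle1 : ∀ x : ℝ, 0 ≤ x → w0 * x < 1 → x ≤ 1 := fun x hx h => by nlinarith
  have hnum : ∀ b : ℝ, 0 ≤ b → b < l → Pool.Agent.Helper29.MX.AllE (fun _ t R' => ∀ (m : ℕ) (hm : m ≤ M + 1),
      num t R' hm b = (num s R hm (z.Z.c + z.Z.u * b) - num s R hm z.Z.c) / z.Z.u) z.Z.sp z.sys (roz z.Z R) := by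
    intro b hb hbl
    refine Pool.Agent.Helper63.ZMX.num_zoom hst hP hW hK hF hPt hb (hbl.trans hl1) (fun T p A hA m hm => ?_) ?_
    · exact ⟨hrig T p A hA z.Z.c hc.le (hle1 _ hc.le hc1) m hm,
        hrig T p A hA _ (hc0 b hb) (hle1 _ (hc0 b hb) (hwin b hb hbl)) m hm⟩
    · rw [htot _ (hc0 b hb) (hwin b hb hbl), htot _ hc.le hc1]
      have h4 : w0 * b < 1 := (mul_lt_mul_of_pos_left hbl hw).trans hl
      nlinarith
  refine rate_zoom hst hP hW hK hPt hF hl1.le (fun b hb hbl T p A hA => (hnum b hb hbl T p A hA M _).ge)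
    (fun b hb hbl T p A hA => (hrig T p A hA _ (hc0 b hb) (hle1 _ (hc0 b hb) (hwin b hb hbl)) M _).le) hD hε.le
    fun a b ha hab hb => ?_
  rw [sub_sub_cancel]
  refine h1 (y := z.Z.u) ?_ hu0 a b ha hab hb
  rw [Real.dist_eq, sub_zero, abs_of_pos hu0]
  exact hu1

/-! ### the digits of the last coordinate -/

/-- the digits of the last coordinate given all digits of the others -/
def dz (Q : S.VV (M + 1)) (b : ℝ) : ℝ := h ((Q.co (Fin.last M)).dg b) ((oth Q (Fin.last M)).dg 1)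

theorem dg_max {n : ℕ} (X : S.VV n) (a : ℝ) : X.dg a = X.dg (max a 0) := by
  rcases le_total a 0 with h | h
  · rw [max_eq_right h, X.dg_nonpos h, X.dg_nonpos le_rfl]
  · rw [max_eq_left h]

/-- constant increments on all events, at levels between `0` and `1` -/
theorem stepE_dz {Q : S.VV (M + 1)} (hq : ∀ (T : Sp) (q : Pj T S) (A : ∀ k, (T.F k).Ω → Prop), 0 < ul (T.pr A) →
    ∀ a b : ℝ, 0 ≤ a → a ≤ b → b ≤ 1 →
      h (((Q.im q A).co (Fin.last M)).dg b) (((Q.im q A).co (Fin.last M)).dg a ⊔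
        (oth (Q.im q A) (Fin.last M)).dg 1) =
      h ((Q.co (Fin.last M)).dg b) ((Q.co (Fin.last M)).dg a ⊔ (oth Q (Fin.last M)).dg 1)) :
    StepE Q (Fin.last M) (dz Q) := by
  intro T p A hA a b hab hb
  have h1 := hq T p A hA (max a 0) (max b 0) (le_max_right _ _) (max_le_max_right 0 hab) (max_le hb zero_le_one)
  rw [dg_max _ a, dg_max _ b, h1, h_step Q (Fin.last M) (max_le_max_right 0 hab)]
  unfold dz
  rw [dg_max _ a, dg_max _ b]

/-- THE DEFICIT of the digits of the last coordinate, if the other coordinates are full -/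
theorem dz_le {Q : S.VV (M + 1)} {ρ : ℝ} (hfull : (M : ℝ) ≤ H ((oth Q (Fin.last M)).dg 1))
    (hdfc : ∀ b : ℝ, 0 ≤ b → b ≤ 1 → H (Q.dg b) ≤ (M + 1 - ρ) * b) {b : ℝ} (h0 : 0 ≤ b) (h1 : b ≤ 1) :
    dz Q b ≤ (1 - ρ) * b := by
  have h2 : H ((oth Q (Fin.last M)).dg 1) ≤ H ((oth Q (Fin.last M)).dg b) + M * (1 - b) := by
    rw [Pool.Agent.Helper71.VIS.oth_pfx, Pool.Agent.Helper71.VIS.oth_pfx]
    have h3 := (pfx Q (Nat.le_succ M)).h_dg_dg h1
    have h4 : H ((pfx Q (Nat.le_succ M)).dg 1) ≤ H ((pfx Q (Nat.le_succ M)).dg b ⊔ (pfx Q (Nat.le_succ M)).dg 1) :=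
      H_mono le_sup_right
    unfold Pool.Agent.Helper31.EC.h at h3
    rw [sup_comm] at h4
    linarith
  have h5 : dz Q b ≤ h ((Q.co (Fin.last M)).dg b) ((oth Q (Fin.last M)).dg b) :=
    h_anti ((oth Q (Fin.last M)).dg_mono h1)
  have h6 : h ((Q.co (Fin.last M)).dg b) ((oth Q (Fin.last M)).dg b) ≤
      H (Q.dg b) - H ((oth Q (Fin.last M)).dg b) := by
    have h7 : (Q.co (Fin.last M)).dg b ⊔ (oth Q (Fin.last M)).dg b ≤ Q.dg b := by
      refine sup_le (VV.co_dg_le Q (Fin.last M) b) ?_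
      rw [Pool.Agent.Helper71.VIS.oth_pfx]
      apply VV.dg_le_dg _ _ _ _ (fun _ _ => True) Typ_true (fun _ => 1) (S.Sub_const zero_le_one)
      refine Eventually.of_forall fun k ω ω' _ _ _ _ _ g i => ?_
      rw [one_mul]
      exact g (Fin.castLE (Nat.le_succ M) i)
    have h8 := H_mono h7
    unfold Pool.Agent.Helper31.EC.h
    linarith
  have h9 := hdfc b h0 h1
  nlinarith

/-- the other coordinates are full, for pairs which are stable at the window `0` -/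
theorem full_oth {s : MSys S (M + 1) (lin g) (Fin r)} {R : Rsl S} (hst : ∀ m, m < M + 1 → STu m) (hP : Pt s R)
    (h0 : tot s R 0 ≤ 0) : (M : ℝ) ≤ H ((oth s.Q (Fin.last M)).dg 1) := by
  have h1 := Pool.Agent.Helper71.VIS.pre_full hst hP le_rfl one_pos (Pool.Agent.Helper4.FRK.klb_top s R 0)
    (Nat.lt_succ_self M)
  have h2 := Pool.Agent.Helper84.SEL.num_le_tot s R (Nat.lt_succ_self M).le 0
  have h3 : (M : ℝ) - volP s R 0 (Nat.lt_succ_self M).le ≤ 0 := h2.trans h0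
  have h4 := H_up1_le (Lab.ofZ fun _ => ⊤) ((pfx s.Q (Nat.lt_succ_self M).le).dg 1)
  rw [Pool.Agent.Helper71.VIS.oth_pfx]
  linarith

end

end Pool.Agent.Helper63.SCN
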