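import Pool.Agent.Helper63.SCN.Zm
import Pool.Agent.Helper77.TPX.Tpe

/-! TOP IN FLAG ZOOMS with small units at a point where the digits of the last coordinate have a density less than one:
the numbers of the zoom on all events, the increments of `h(z_b | P_1)` on all events. -/

set_option autoImplicit false

namespace Pool.Agent.Helper63.SCN

open Finset Filter Topology Matrix Pool.Agent.Helper69.RK Pool.Agent.Helper31.EC Pool.Agent.Helper31.EC.Sp
open Pool.Agent.Helper40.EL Pool.Agent.Helper89.LX Pool.Agent.Helper84.MT Pool.Agent.Helper49.MD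
open Pool.Agent.Helper7.GZ Pool.Agent.Helper36.AM Pool.Agent.Helper4.VZ Pool.Agent.Helper77.TPX
open Pool.Agent.Helper3.LF
open Pool.Agent.Helper7.RD (PZ RW WZ roz)
open Pool.Agent.Helper29.MX (Rsl KLb volKO volP Pt)
open Pool.Agent.Helper94.SEL (num tot lmd Top)
open Pool.Agent.Helper71.VIS (pt_im)
open Pool.Agent.Helper63.ZMX (zuX pjX prX rowsX pzX wzX klbX)

noncomputable section

variable {S T : Sp} {N M : ℕ}

section law

variable {E' : ℕ → ℕ} {ι : Type} [Finite ι] {g : ℕ}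

/-- the rate of the last coordinate of the zoom, one law, from its rate in the depths of the zoom -/
theorem rate_law {s : MSys S (M + 1) (lin g) ι} {R : Rsl S} (hst : ∀ m, m < M + 1 → STu m)
    (hP : Pt s R) {Z : ZU S} (hK : KLb s R Z.c Z.l) (z : PZ Z s.Q (M + 1)) {t : MSys Z.sp (M + 1) E' ι}
    (hQ : t.Q = z.X) (hPt : Pt t (roz Z R)) {La : Fin (M + 1) → ℝ} (hF : Flg z.R La (Fin.last M)) {b1 : ℝ}
    (hb1 : b1 ≤ 1) (hw : ∀ b : ℝ, 0 ≤ b → b < b1 → WZ Z s t b)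
    (hn : ∀ b : ℝ, 0 ≤ b → b < b1 → volP t (roz Z R) b (Nat.le_succ M) ≤
      M - (M - ∑ i : Fin M, La (Fin.castLE (Nat.le_succ M) i) - volP s R (Z.c + Z.u * b) (Nat.le_succ M)) / Z.u)
    {ρ ε : ℝ} (hT : ∀ a b : ℝ, 0 ≤ a → a ≤ b → b ≤ b1 → h ((s.Q.co (Fin.last M)).dg (La (Fin.last M) + Z.u * b))
      ((s.Q.co (Fin.last M)).dg (La (Fin.last M) + Z.u * a) ⊔ (oth s.Q (Fin.last M)).dg 1) ≤
        Z.u * ((1 - ρ) * (b - a) + ε)) (hε : 0 ≤ ε) (a b : ℝ) (ha : 0 ≤ a)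
    (hab : a ≤ b) (hb : b ≤ b1) : h ((z.X.co (Fin.last M)).dg b)
      ((z.X.co (Fin.last M)).dg a ⊔ (oth z.X (Fin.last M)).dg 1) ≤ (1 - ρ) * (b - a) + ε := by
  have hu := Z.hu
  have hZ1 := Z.h1
  apply le_of_forall_pos_le_add
  intro δ hδ
  rcases hab.eq_or_lt with hab' | hab'
  · rw [← hab']
    have h2 : h ((z.X.co (Fin.last M)).dg a) ((z.X.co (Fin.last M)).dg a ⊔ (oth z.X (Fin.last M)).dg 1) = 0 :=
      h_zero le_sup_left
    rw [h2]
    linarith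
  have hρ : 0 < 1 + |ρ| := by positivity
  obtain ⟨b', hb'⟩ : ∃ b', b' = max a (b - δ / (2 * (1 + |ρ|))) := ⟨_, rfl⟩
  have hd : 0 < δ / (2 * (1 + |ρ|)) := by positivity
  have k1 : a ≤ b' := by
    rw [hb']
    exact le_max_left _ _
  have k2 : b' < b := by
    rw [hb']
    exact max_lt hab' (by linarith)
  have k3 : (1 + |ρ|) * (b - b') ≤ δ / 2 := by
    have h3 : b - δ / (2 * (1 + |ρ|)) ≤ b' := by
      rw [hb']
      exact le_max_right _ _
    have h4 : b - b' ≤ δ / (2 * (1 + |ρ|)) := by linarith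
    have h5 := mul_le_mul_of_nonneg_left h4 hρ.le
    refine h5.trans (le_of_eq ?_)
    field_simp
  have k0 : 0 ≤ b' := ha.trans k1
  have k4 : Z.c + Z.u * b' < 1 := by nlinarith
  obtain ⟨y, α, β, y1, y2, y3, y4⟩ := zoom_lab hst hP hK hPt (hw b' k0 (k2.trans_le hb)) (by linarith) k4
    (hn b' k0 (k2.trans_le hb)) (half_pos hδ)
  rw [hQ] at y1 y3
  have c3 := stp_gen hF z.hX ha k1 (by linarith) (hT a b' ha k1 (k2.le.trans hb)) y y1 y2 y3
  rw [flgN_eq] at c3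
  have c4 := h_triangle ((z.X.co (Fin.last M)).dg b) ((z.X.co (Fin.last M)).dg b')
    ((z.X.co (Fin.last M)).dg a ⊔ (oth z.X (Fin.last M)).dg 1)
  have c5 : h ((z.X.co (Fin.last M)).dg b) ((z.X.co (Fin.last M)).dg b' ⊔
      ((z.X.co (Fin.last M)).dg a ⊔ (oth z.X (Fin.last M)).dg 1)) ≤ b - b' := by
    refine (h_anti le_sup_left).trans ?_
    have h3 := (z.X.co (Fin.last M)).h_dg_dg k2.le
    rw [Nat.cast_one, one_mul] at h3
    exact h3
  have k5 : (1 - ρ) * (b' - a) + (b - b') ≤ (1 - ρ) * (b - a) + δ / 2 := by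
    have h3 : ρ * (b - b') ≤ |ρ| * (b - b') := mul_le_mul_of_nonneg_right (le_abs_self ρ) (by linarith)
    nlinarith
  linarith

end law

variable {ι : Type} [Finite ι] {g : ℕ}

/-- **THE RATE OF THE LAST COORDINATE OF THE ZOOM, on all events** -/
theorem rate_zoom {s : MSys S (M + 1) (lin g) ι} {R : Rsl S} (hst : ∀ m, m < M + 1 → STu m) (hP : Pt s R)
    {z : RW s (M + 1)} {W : Rsl S} (hW : z.Z.l = Lab.ofZ W) (hK : KLb s R z.Z.c z.Z.l)
    (hPt : Pt z.sys (roz z.Z R)) (hF : Pool.Agent.Helper29.MX.Flg z (lmd s R z.Z.c)) {b1 : ℝ} (hb1 : b1 ≤ 1)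
    (hn : ∀ b : ℝ, 0 ≤ b → b < b1 → Pool.Agent.Helper29.MX.AllE (fun _ t R' =>
      (num s R (Nat.le_succ M) (z.Z.c + z.Z.u * b) - num s R (Nat.le_succ M) z.Z.c) / z.Z.u ≤
        num t R' (Nat.le_succ M) b) z.Z.sp z.sys (roz z.Z R))
    (hr : ∀ b : ℝ, 0 ≤ b → b < b1 → Pool.Agent.Helper29.MX.AllE (fun _ t R' => num t R' (Nat.le_succ M) (z.Z.c + z.Z.u * b) ≤
      num s R (Nat.le_succ M) (z.Z.c + z.Z.u * b)) S s R) {Dn : ℝ → ℝ} (hD : StepE s.Q (Fin.last M) Dn) {ρ ε : ℝ}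
    (hε : 0 ≤ ε) (hq : ∀ a b : ℝ, 0 ≤ a → a ≤ b → b ≤ b1 →
      (Dn (lmd s R z.Z.c (Fin.last M) + z.Z.u * b) - Dn (lmd s R z.Z.c (Fin.last M) + z.Z.u * a)) / z.Z.u ≤
        (1 - ρ) * (b - a) + ε) : Top ρ b1 ε z.X := by
  intro T p A hA a b ha hab hb
  have h0 : ∀ j, 0 ≤ lmd s R z.Z.c j := by
    intro j
    have h1 := Pool.Agent.Helper84.SEL.num_le s R (Nat.le_succ j) (Nat.succ_le_of_lt j.2) z.Z.c
    unfold lmd
    linarith
  have hv : ((M + 1 : ℕ) : ℝ) - ∑ j, lmd s R z.Z.c j ≤ volKO s R z.Z.c := by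
    have h1 := sum_lmd (s := s) (R := R) (c := z.Z.c) (le_refl (M + 1))
    have h2 : ∑ i : Fin (M + 1), lmd s R z.Z.c (Fin.castLE (le_refl (M + 1)) i) = ∑ j, lmd s R z.Z.c j := rfl
    rw [h2] at h1
    rw [h1]
    unfold num
    rw [Pool.Agent.Helper7.RD.volP_self]
    linarith
  have hf := flg_of hF hK hv h0 (zl := Fin.last M) fun j => Fin.le_last j
  have hu := z.Z.hu
  have hl1 : lmd s R z.Z.c (Fin.last M) + z.Z.u ≤ 1 := Pool.Agent.Helper94.SEL.flg_add_le hF _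
  exact rate_law (s := s.im (pjX z.Z p) A (prX hA)) (R := R) (Z := zuX z.Z p A)
    (t := MSys.im (S := z.Z.sp) p A hA z.sys) hst (pt_im hP (pjX z.Z p) A hA) (klbX hW hK hA) (pzX z.pz hA) rfl
    (pt_im (S := z.Z.sp) hPt p A hA) (hf.imX hA) hb1 (fun b h1 _ => wzX (z.wz h1) hA)
    (fun b h1 h2 => by
      have h3 := hn b h1 h2 T p A hA
      have h4 := hr b h1 h2 _ (pjX z.Z p) A hA
      have h5 := sum_lmd (s := s) (R := R) (c := z.Z.c) (Nat.le_succ M)
      have h6 : (M : ℝ) - num s R (Nat.le_succ M) z.Z.c - volP (s.im (pjX z.Z p) A (prX hA)) R (z.Z.c + z.Z.u * b)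
          (Nat.le_succ M) ≤ num s R (Nat.le_succ M) (z.Z.c + z.Z.u * b) - num s R (Nat.le_succ M) z.Z.c := by
        unfold num at h4 ⊢
        linarith
      have h7 := (div_le_div_of_nonneg_right h6 hu.le).trans h3
      rw [h5]
      have h8 : num (MSys.im (S := z.Z.sp) p A hA z.sys) (roz z.Z R) (Nat.le_succ M) b =
          M - volP (MSys.im (S := z.Z.sp) p A hA z.sys) (roz z.Z R) b (Nat.le_succ M) := rfl
      have h9 := h7.trans h8.le
      show volP (MSys.im (S := z.Z.sp) p A hA z.sys) (roz z.Z R) b (Nat.le_succ M) ≤ _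
      exact le_sub_comm.1 h9)
    (fun a b h1 h2 h3 => by
      have h4 := hD _ (pjX z.Z p) A hA (lmd s R z.Z.c (Fin.last M) + z.Z.u * a)
        (lmd s R z.Z.c (Fin.last M) + z.Z.u * b) (by have := mul_le_mul_of_nonneg_left h2 hu.le; linarith)
        (by nlinarith)
      refine h4.le.trans ?_
      have h5 := hq a b h1 h2 h3
      rw [div_le_iff₀ hu, mul_comm ((1 - ρ) * (b - a) + ε)] at h5
      exact h5) hε a b ha hab hb

end

end Pool.Agent.Helper63.SCN
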