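import Pool.Agent.Helper63.SCN.Dnum
import Pool.Agent.Helper77.TPX.Im

/-! TOP IN THE ZOOMS AT A POINT OF DIFFERENTIABILITY OF `D`: if the increments of `h(z_b | P_1)` are those of a function
`D` on all events and `D' (v) = 1 - ρ < 1`, then the zooms in flag rows in which `z` has the exponent `v` have TOP up to
an error which tends to `0` with the unit. -/

set_option autoImplicit false

namespace Pool.Agent.Helper63.SCN

open Finset Filter Topology Pool.Agent.Helper69.RK Pool.Agent.Helper31.EC Pool.Agent.Helper31.EC.Sp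
open Pool.Agent.Helper40.EL Pool.Agent.Helper89.LX Pool.Agent.Helper84.MT Pool.Agent.Helper49.MD
open Pool.Agent.Helper7.GZ Pool.Agent.Helper36.AM Pool.Agent.Helper4.VZ Pool.Agent.Helper77.TPX
open Pool.Agent.Helper3.LF

noncomputable section

variable {S : Sp} {N : ℕ} {Z : ZU S} {Q : S.VV N} {D : ℕ} {Λ : ℝ} {R : Rows Q Z.l N D Λ Z.u} {X : Z.sp.VV N}
  {La : Fin N → ℝ}

/-- one law, one pair of levels, any bound of the rate of the coordinate `z` -/
theorem stp_gen {z : Fin N} (hF : Flg R La z) (hX : Rows.IsX Z R X) {a b τ : ℝ} (ha : 0 ≤ a) (hab : a ≤ b)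
    (hb1 : b ≤ 1) (hT : h ((Q.co z).dg (La z + Z.u * b)) ((Q.co z).dg (La z + Z.u * a) ⊔ (oth Q z).dg 1) ≤ Z.u * τ)
    (y : Lab Z.sp) (hy : H (up1 y ((X.co z).dg b)) = 0) {α β : ℝ} (hα : α ≤ H (up1 y (uL Z ((oth Q z).dg 1))))
    (hβ : H (up1 y ((oth X z).dg 1)) ≤ β) :
    h ((X.co z).dg b) ((X.co z).dg a ⊔ (oth X z).dg 1) ≤ τ + (flgN Z La z - (α - β)) := by
  have hu := Z.hu
  have ha1 : a ≤ 1 := hab.trans hb1
  have k8 : (oth X z).dg 1 ≤ uL Z ((oth Q z).dg 1) := by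
    rw [oth_last X hF.lst, oth_last Q hF.lst]
    exact flag_le hX hF.dep z.val
  have kn : h (uL Z ((oth Q z).dg 1)) ((oth X z).dg 1) ≤ flgN Z La z := by
    rw [oth_last X hF.lst, oth_last Q hF.lst]
    exact flag_h hX hF.dep hF.ge hF.h0 hF.h1 z.val z.isLt.le
  have k5 : (X.co z).dg b ≤ uL Z ((Q.co z).dg (La z + Z.u * b)) ⊔ (X.co z).dg a ⊔ uL Z ((oth Q z).dg 1) := by
    refine (row_le (rone R z) hF.le (rone_isX hX z) hb1).trans ?_
    exact sup_le (le_sup_left.trans le_sup_left) le_sup_right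
  have hz0 := hF.h0 z
  have hz1 := hF.h1 z
  have k6 : uL Z ((Q.co z).dg (La z + Z.u * a)) ≤ (X.co z).dg a ⊔ uL Z ((oth Q z).dg 1) := by
    apply row_ge (hF.ge z) (rone_isX hX z) ha1
    · have := mul_nonneg hu.le ha
      linarith
    · nlinarith
  have k7 : h (uL Z ((Q.co z).dg (La z + Z.u * b))) (uL Z ((Q.co z).dg (La z + Z.u * a)) ⊔
      uL Z ((oth Q z).dg 1)) ≤ τ := by
    rw [← uL_sup]
    refine (h_uL_le Z _ _).trans ?_
    rw [div_le_iff₀ hu]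
    exact hT.trans (le_of_eq (mul_comm _ _))
  exact topx_slk _ _ _ _ _ _ y hy ((X.co z).dg_mono hab) k8 kn hα hβ k5 k6 k7

theorem topQd_xI {W : Sp} (p : Pj W Z.sp) (E : ∀ k, (W.F k).Ω → Prop) {X : Z.sp.VV N} {z : Fin N} {ρ l ε : ℝ} :
    TopQd (X.im p E) z ρ l ε ↔ TopQd (xI p E X) z ρ l ε := by
  have key : ∀ {T S : Sp} (q : Pj T S) (Q : S.VV N), TopQd (q.vv Q) z ρ l ε ↔ TopQd Q z ρ l ε := by
    intro T S q Q
    have e1 : oth (q.vv Q) z = q.vv (oth Q z) := VV_ext rfl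
    have e2 : (q.vv Q).co z = q.vv (Q.co z) := VV_ext rfl
    unfold TopQd
    rw [e1, e2]
    simp only [← q.map_dg, ← q.map_sup, q.h_map]
  rw [← key (Sp.imq p E), ← key (qI Z p E)]
  have e1 : (Sp.imq p E).vv (X.im p E) = (qI Z p E).vv (xI p E X) := VV_ext rfl
  rw [e1]

/-- ZOOMS OF A POINT WITH RIGID `D`: TOP up to `δ` on all events of all extensions -/
theorem topEd_zoom {z : Fin N} (hF : Flg R La z) (hX : Rows.IsX Z R X) {Dn : ℝ → ℝ} (hD : StepE Q z Dn)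
    {ρ l δ : ℝ} (hl1 : l ≤ 1) (hq : ∀ a b : ℝ, 0 ≤ a → a ≤ b → b ≤ l →
      (Dn (La z + Z.u * b) - Dn (La z + Z.u * a)) / Z.u ≤ (1 - ρ) * (b - a) + δ)
    (hnum : NumE Q X La z l) : TopEd X z ρ l δ := by
  intro W p E hE
  rw [topQd_xI]
  intro a b ha hab hb
  apply le_of_forall_pos_le_add
  intro ε hε
  obtain ⟨y, α, β, h1, h2, h3, h4⟩ := hnum W p E hE b (ha.trans hab) hb ε hε
  have hu := Z.hu
  have h5 : h (((Q.im (pjI Z p) E).co z).dg (La z + (zuI Z p E).u * b))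
      (((Q.im (pjI Z p) E).co z).dg (La z + (zuI Z p E).u * a) ⊔ (oth (Q.im (pjI Z p) E) z).dg 1) ≤
      (zuI Z p E).u * ((1 - ρ) * (b - a) + δ) := by
    have e : (zuI Z p E).u = Z.u := rfl
    rw [e]
    have hz1 := hF.h1 z
    have h6 := hD _ (pjI Z p) E hE (La z + Z.u * a) (La z + Z.u * b)
      (by have := mul_le_mul_of_nonneg_left hab hu.le; linarith) (by nlinarith)
    rw [h6]
    have h7 := hq a b ha hab hb
    rw [div_le_iff₀ hu] at h7
    linarith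
  have h6 := stp_gen (hF.im p E hE) (isX_I p E hE hX) ha hab (hb.trans hl1) h5 y h1 h2 h3
  have e : flgN (zuI Z p E) La z = flgN Z La z := rfl
  rw [e] at h6
  linarith

/-- ZOOMS WITH SMALL UNITS at a point where `D` is differentiable, the coordinate `z` has the exponent `v` -/
theorem topEd_small {z : Fin N} {Dn : ℝ → ℝ} {v D' : ℝ} (hd : HasDerivAt Dn D' v) {l : ℝ} (hl0 : 0 ≤ l) (hl1 : l ≤ 1)
    {δ : ℝ} (hδ : 0 < δ) : ∃ u₀ : ℝ, 0 < u₀ ∧ ∀ (S : Sp) (Q : S.VV N), StepE Q z Dn → ∀ (Z : ZU S) (D : ℕ) (Λ : ℝ)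
      (R : Rows Q Z.l N D Λ Z.u) (X : Z.sp.VV N) (La : Fin N → ℝ), Flg R La z → Rows.IsX Z R X → La z = v →
      Z.u < u₀ → NumE Q X La z l → TopEd X z (1 - D') l δ := by
  obtain ⟨u₀, h0, h1⟩ := Metric.eventually_nhds_iff.1 (eventually_nhdsWithin_iff.1 (quot_le hd hl0 hδ))
  refine ⟨u₀, h0, fun S Q hQ Z D Λ R X La hF hX hv hu hnum => ?_⟩
  refine topEd_zoom hF hX hQ hl1 (fun a b ha hab hb => ?_) hnum
  rw [hv, sub_sub_cancel]
  refine h1 (y := Z.u) ?_ Z.hu a b ha hab hb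
  rw [Real.dist_eq, sub_zero, abs_of_pos Z.hu]
  exact hu

end

end Pool.Agent.Helper63.SCN
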